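import Pool.Agent.W_448fg_h53.FgF

/-!
MP_448cb3_co, G2, case B, window `j`: the value `2 L - 3 w21 + 13 w32` of a row with the pattern [DL] at
the left end (the weights `W#`).  helper53.
-/

namespace Pool.Agent.GaussPoset.Win.W4

set_option linter.unusedSectionVars false

open Finset

universe u

variable {P : Type u} [Fintype P] [PartialOrder P] [DecidableEq P] {r i : ℕ}
variable {psi : P → P} {C K : Finset P} {w v : P} {m : ℕ} {x : ℕ → P}

lemma two_sq_sub (a : ℤ) : 0 ≤ 2 * a ^ 2 - a := by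
  rcases lt_or_ge 0 a with h | h <;> nlinarith

lemma QS_three (a : ℕ → ℤ) {s : ℕ} (n : ℕ) (ha : ∀ k, s ≤ k → k < s + n → 0 ≤ a k) :
    3 * ∑ k ∈ Ico s (s + n), a k ≤ 2 * QS a s (s + n) := by
  induction n with
  | zero => simp [QS_self]
  | succ n ih =>
    have h1 := ih fun k hk hk' => ha k hk (by omega)
    have h2 := QS_top a (s := s) (t := s + n) (by omega)
    have h3 := ha (s + n) (by omega) (by omega)
    have h4 : (0 : ℤ) ≤ if s < s + n then 2 * a (s + n - 1) * a (s + n) else 0 := by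
      split_ifs with h5
      · have := ha (s + n - 1) (by omega) (by omega)
        positivity
      · exact le_rfl
    have h5 := two_sq_sub (a (s + n))
    rw [show s + (n + 1) = s + n + 1 by omega, h2, sum_Ico_succ_top (by omega)]
    linarith

lemma QS_three' (a : ℕ → ℤ) {s t : ℕ} (h : s ≤ t) (ha : ∀ k, s ≤ k → k < t → 0 ≤ a k) :
    3 * ∑ k ∈ Ico s t, a k ≤ 2 * QS a s t := by
  obtain ⟨n, rfl⟩ : ∃ n, t = s + n := ⟨t - s, by omega⟩
  exact QS_three a n ha

/-- with the term of the first index -/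
lemma QS_three_first (a : ℕ → ℤ) {s t : ℕ} (h : s < t) (ha : ∀ k, s ≤ k → k < t → 0 ≤ a k) :
    3 * ∑ k ∈ Ico s t, a k + 4 * a s - 3 ≤ 2 * QS a s t := by
  have h1 := QS_bot a h
  have h2 := QS_three' a (s := s + 1) (t := t) (by omega) fun k hk hk' => ha k (by omega) hk'
  have h4 : (0 : ℤ) ≤ if s + 1 < t then 2 * a s * a (s + 1) else 0 := by
    split_ifs with h5
    · have := ha s le_rfl h
      have := ha (s + 1) (by omega) h5
      positivity
    · exact le_rfl
  rw [h1, sum_eq_sum_Ico_succ_bot h]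
  have h5 : 0 ≤ 2 * a s ^ 2 - 5 * a s + 3 := by
    have h6 : 0 ≤ (a s - 1) * (2 * a s - 3) := by
      rcases lt_or_ge (a s) 2 with h7 | h7
      · have : a s - 1 ≤ 0 := by omega
        have : 2 * a s - 3 ≤ 0 := by omega
        nlinarith
      · have : 0 ≤ a s - 1 := by omega
        have : 0 ≤ 2 * a s - 3 := by omega
        positivity
    linarith
  linarith

namespace DLg

variable (h : DLg r i K psi C w v m x)
include h

/-- the coefficient (2,1) -/
theorem al2_form (hp : pen (x 2) = ∅) : I2.al 2 (st i C).card (ZS i C) =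
    (NE i C x 0 + (uc (x 0)).card - 1) + (NE i C x 2 - 1) + ∑ k ∈ Ico 3 m, NE i C x k := by
  have hm := h.hm
  have g0 := h.dg0
  have g2 := h.dg2
  have q2 := h.sum_vp_split
  have a1 := h.Q.al2 h.hw h.hv h.n01 h.n12 h.n02
  have m1 : mm i K C {x 0, x 1} = 1 := by
    have := h.mmx (a := 0) (b := 1) (by omega) (by omega)
    norm_num at this
    exact this
  have m2 : mm i K C {x 1, x 2} = 0 := by
    have := h.mmx (a := 1) (b := 2) (by omega) (by omega)
    norm_num at this
    exact this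
  rw [hp, card_empty] at g2
  rw [m1, m2, g0, g2, q2] at a1
  rw [a1]
  push_cast
  ring

/-- the value at the weights `W#`, window `j` part: `2 L - 3 w21 + 13 w32` -/
theorem sharp4 (hm4 : 4 ≤ m) (hl : 0 ≤ NE i C x (m - 1)) :
    ((DE i C x 2).card = 0 ∧ 3 ≤ 2 * Lv i C - 3 * I2.al 2 (st i C).card (ZS i C) + 13 * wv i C) ∨
    ((DE i C x 2).card = 1 ∧ 2 * (NE i C x 0 + (uc (x 0)).card - 1) ^ 2 -
      (NE i C x 0 + (uc (x 0)).card - 1) - 4 + 2 * OCs i C w v ≤
        2 * Lv i C - 3 * I2.al 2 (st i C).card (ZS i C) + 13 * wv i C) ∨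
      (DE i C x 2).card = 2 := by
  have hU2 := h.W.ue_inner (k := 2) (by omega) (by omega)
  have h3 := h.TUs_le hm4
  have h4 := OCs_nonneg (i := i) (C := C) (w := w) (v := v)
  have hpos : ∀ k, 3 ≤ k → k < m → 0 ≤ NE i C x k := by
    intro k hk hk'
    rcases Nat.lt_or_ge (k + 1) m with h6 | h6
    · exact h.NE_nonneg (by omega) (by omega)
    · have : k = m - 1 := by omega
      rw [this]
      exact hl
  have q1 := QS_three' (NE i C x) (s := 3) (t := m) (by omega) hpos
  have q2 := QS_three_first (NE i C x) (s := 3) (t := m) (by omega) hpos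
  have e2 : NE i C x 2 = ((DE i C x 2).card : ℤ) := by
    unfold NE
    rw [hU2, card_empty]
    push_cast
    ring
  have hp : pen (x 2) = ∅ := h.W.pen0 2 le_rfl (by omega)
  have t1 : ((TUs i C x).card : ℤ) ≤ 1 := by exact_mod_cast h3
  have t2 : (0 : ℤ) ≤ ((TLs i C x).card : ℤ) := by positivity
  have t3 := two_sq_sub (NE i C x 0 + (uc (x 0)).card - 1)
  rw [h.L_form hm4, h.Zs_eq hm4, h.al2_form hp, h.w3_eq, e2]
  rcases h.CH2_num with ⟨d, c⟩ | ⟨d, c⟩ | ⟨d, c⟩
  · refine Or.inl ⟨d, ?_⟩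
    rw [d]
    push_cast
    linarith
  · refine Or.inr (Or.inl ⟨d, ?_⟩)
    rw [d]
    push_cast
    linarith
  · exact Or.inr (Or.inr d)

/-- four sites: always positive -/
theorem sharp3 (hm3 : m = 3) (hU : UE i C x 2 = ∅) (hp : pen (x 2) = ∅)
    (h3 : (uc (x 3)).card + (pen (x 3)).card ≤ 2) :
    2 ≤ 2 * Lv i C - 3 * I2.al 2 (st i C).card (ZS i C) + 13 * wv i C := by
  have g4 := card_le_card (T4_subset i C)
  have g5 := two_sq_sub (NE i C x 0 + (uc (x 0)).card - 1)
  have e2 : NE i C x 2 = ((DE i C x 2).card : ℤ) := by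
    unfold NE
    rw [hU, card_empty]
    push_cast
    ring
  rw [h.L_form3 hm3, h.al2_form hp, h.w3_eq, e2, hp, card_empty]
  have hz : ((T4 i C).card : ℤ) ≤ (Z4 i C).card := by exact_mod_cast g4
  have hsq : ((uc (x 3)).card : ℤ) + (pen (x 3)).card ≤ 2 := by exact_mod_cast h3
  have e3 : ∑ k ∈ Ico 3 m, NE i C x k = 0 := by
    rw [hm3, Ico_self, sum_empty]
  rw [e3]
  rcases h.CH2_num with ⟨d, c⟩ | ⟨d, c⟩ | ⟨d, c⟩ <;> rw [d] <;> push_cast <;> linarith

end DLg

end Pool.Agent.GaussPoset.Win.W4
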