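import Pool.Agent.W_448fg_h53.FgI

/-!
MP_448cb3_co, G2, case B, windows `j - 1` and `j`: a row with the pattern [DL] at a fold end, the weights
`<-1, 9, 1, 4, 3, -1, 2, 13, 0>`.  helper53.
-/

namespace Pool.Agent.GaussPoset.EK

set_option linter.unusedSectionVars false

open Finset Win St Polynomial Wd Win.W4
open Pool.Agent.GaussPoset.Win.SO (PN vp mem_PN)
open Pool.Agent.GaussPoset.Win.Pn (Wt own shr Lm A3 B5 C6 C8 C10 F2 F3 F4 F6)

universe u

variable {P : Type u} [Fintype P] [PartialOrder P] [DecidableEq P] {r i j : ℕ}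

variable {m : ℕ} {x : ℕ → P} {c : ℕ → ℤ} {t : Tops P} {lo hi : ℕ → ℕ} {e : ℕ → ℕ → P}

variable {K : Finset P} {psi : P → P} {w v : P}

/-- the signed numbers at a part with two unmatched elements -/
theorem fg_sa (h : NJ P r j) (R : Red P j K psi)
    (Q : K5 r j K psi (cext (j + 1) (topOf : P → Tops P) t) w v) (T : Finset P) :
    sa j (topOf : P → Tops P) K T t =
      (if Disjoint (uc w) T then 1 else 0) - (if Disjoint (dc v) T then 1 else 0) := by
  classical
  have lw := Q.lw0
  have lv := Q.lv0
  have wK : w ∈ K := (Q.hK w Q.wC).2 (Or.inl rfl)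
  have vK : v ∈ K := (Q.hK v Q.vC).2 (Or.inr rfl)
  have wd : w ∈ dbL P j := by
    rcases mem_union.1 (R.sub wK) with h1 | h1
    · exact h1
    · have := (mem_dbU.1 h1).1
      omega
  have vd : v ∈ dbU P j := by
    rcases mem_union.1 (R.sub vK) with h1 | h1
    · have := (mem_dbL.1 h1).1
      omega
    · exact h1
  have tw : topOf w = t := mem_cext.1 Q.wC w le_rfl (by omega)
  have tv : topOf v = t := mem_cext.1 Q.vC v le_rfl (by omega)
  have hne : w ≠ v := Q.ne
  rw [sa_eq]
  have e1 : K.filter (fun k => topOf k = t ∧ Disjoint (ns j k) T) =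
      ({w, v} : Finset P).filter (fun k => Disjoint (ns j k) T) := by
    ext k
    rw [mem_filter, mem_filter, mem_insert, mem_singleton]
    constructor
    · rintro ⟨h1, h2, h3⟩
      have hl : lev k ≤ j + 1 := by
        rcases mem_union.1 (R.sub h1) with h4 | h4
        · exact (mem_dbL.1 h4).1.le
        · have := (mem_dbU.1 h4).1
          omega
      exact ⟨(Q.hK k (mem_cext_of_le h.split hl h2)).1 h1, h3⟩
    · rintro ⟨h1 | h1, h2⟩
      · subst h1
        exact ⟨wK, tw, h2⟩
      · subst h1
        exact ⟨vK, tv, h2⟩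
  rw [e1, sum_filter, sum_pair hne, sgn_low wd, sgn_upp vd, ns_L wd, ns_U vd]
  split_ifs <;> norm_num

namespace FoldDL

variable (F : FoldDL P r i t m x c lo hi e)
include F

/-- THE FORM OF THE VALUE, all weights -/
theorem own_form' (W : Wt) : own W i (i + 1) t = W.a3 +
    W.a6 * (1 + 2 * ((SO.N1f i (SS i t)).card : ℤ)) +
    W.f4 * Lv (i + 1) (cext (i + 1 + 1) (topOf : P → Tops P) t) +
    (W.f2 - W.f4) * F2 (i + 1) t +
    W.f3 * wv (i + 1) (cext (i + 1 + 1) (topOf : P → Tops P) t) +
    W.f6 * wv (i + 1) (cext (i + 1 + 1) (topOf : P → Tops P) t) ^ 2 := by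
  obtain ⟨g3, g5, g6, g8, g10⟩ := F.win1
  have w6 := F.w6
  have e2 : F2 (i + 1) t + F4 (i + 1) t =
      Lv (i + 1) (cext (i + 1 + 1) (topOf : P → Tops P) t) := rfl
  have e3 : F3 (i + 1) t = wv (i + 1) (cext (i + 1 + 1) (topOf : P → Tops P) t) := rfl
  have e6 : F6 (i + 1) t = wv (i + 1) (cext (i + 1 + 1) (topOf : P → Tops P) t) ^ 2 := by
    unfold F6
    rw [w6]
    unfold wv I2.bb I2.VV
    ring
  unfold own
  rw [g3, g5, g6, g8, g10, e3, e6, ← e2]
  ring

/-- the value of a row with the pattern [DL] at a fold end -/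
theorem own_sharp : own ⟨-1, 9, 1, 4, 3, -1, 2, 13, 0⟩ i (i + 1) t =
    2 * ((SO.N1f i (SS i t)).card : ℤ) +
    (2 * Lv (i + 1) (cext (i + 1 + 1) (topOf : P → Tops P) t) -
      3 * I2.al 2 (st (i + 1) (cext (i + 1 + 1) (topOf : P → Tops P) t)).card
        (ZS (i + 1) (cext (i + 1 + 1) (topOf : P → Tops P) t)) +
      13 * wv (i + 1) (cext (i + 1 + 1) (topOf : P → Tops P) t)) := by
  rw [F.own_form']
  have e2 : F2 (i + 1) t = I2.al 2 (st (i + 1) (cext (i + 1 + 1) (topOf : P → Tops P) t)).card
        (ZS (i + 1) (cext (i + 1 + 1) (topOf : P → Tops P) t)) := rfl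
  rw [e2]
  ring

/-- an element over the first pair is not below five elements of the level `i` -/
lemma not_N5s {z y s : P} (S : K2.SD (i + 1) (topOf : P → Tops P) z y s)
    (hy : uc y = {x 0, x 1}) : z ∉ So.N5s i (topOf : P → Tops P) := by
  classical
  obtain ⟨K, psi, R⟩ := exists_red P (i + 1)
  obtain ⟨w, v, D⟩ := F.dlg R
  have H := F.h.g.H
  have hm := F.hm
  intro hz
  obtain ⟨-, -, -, h5⟩ := So.mem_N5s.1 hz
  have hD : So.CrV i (topOf : P → Tops P) z y s := ⟨S.lz, S.huc, S.hk⟩
  obtain ⟨q, hq⟩ := card_eq_one.1 S.cv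
  rw [So.up_eq] at h5
  have h6 : (lv P i).filter (fun p => z < p) ⊆ uc (x 1) ∪ uc q := by
    intro p hp
    rw [mem_filter, mem_lv] at hp
    obtain ⟨b, hb, hp2⟩ := (hD.mem0 H).1 hp
    rw [hy, hq, mem_union, mem_insert, mem_singleton, mem_singleton] at hb
    rw [mem_union]
    rcases hb with (rfl | rfl) | rfl
    · left
      -- the upper cover of the fold end
      have h7 := D.W.up 0 1 (by omega) (by omega)
      rw [if_pos rfl] at h7
      unfold ucv at h7
      obtain ⟨u, hu⟩ := card_pos.1 (by rw [h7]; norm_num)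
      rw [mem_filter] at hu
      obtain ⟨u', hu'⟩ := card_eq_one.1 F.uc0
      have h8 := mem_uc.2 hu.2.1
      rw [hu', mem_singleton] at h8 hp2
      rw [hp2, ← h8]
      exact mem_uc.2 hu.2.2
    · exact Or.inl hp2
    · exact Or.inr hp2
  have h7 := card_le_card h6
  have h8 := card_union_le (uc (x 1)) (uc q)
  have h9 := uc_card_le H (x 1)
  have h10 := uc_card_le H q
  omega

/-- THE THREE CASES of a row with the pattern [DL] at a fold end -/
theorem tri : 0 < own ⟨-1, 9, 1, 4, 3, -1, 2, 13, 0⟩ i (i + 1) t ∨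
    (-2 ≤ own ⟨-1, 9, 1, 4, 3, -1, 2, 13, 0⟩ i (i + 1) t ∧
      ∃ z y s, K2.SD (i + 1) (topOf : P → Tops P) z y s ∧ topOf y = t ∧ uc y = {x 0, x 1} ∧
        z ∉ So.N5s i (topOf : P → Tops P)) ∨
    (4 ≤ m ∧ (DE (i + 1) (cext (i + 1 + 1) (topOf : P → Tops P) t) x 2).card = 2) := by
  classical
  obtain ⟨K, psi, R⟩ := exists_red P (i + 1)
  obtain ⟨w, v, D⟩ := F.dlg R
  obtain ⟨f1, f2, f3, f4, hor⟩ := F.coord
  have hm := F.hm
  have ho := F.own_sharp
  have n0 : (0 : ℤ) ≤ (SO.N1f i (SS i t)).card := by positivity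
  have hlast := F.UE_last
  rcases Nat.lt_or_ge 3 m with h4 | h4
  · have hl : 0 ≤ NE (i + 1) (cext (i + 1 + 1) (topOf : P → Tops P) t) x (m - 1) := by
      unfold NE
      rw [hlast, card_empty]
      push_cast
      omega
    rcases D.sharp4 h4 hl with ⟨d, g⟩ | ⟨d, g⟩ | d
    · left
      rw [ho]
      linarith
    · -- one lower pendant over the third pair
      have hn := F.N1f_ge (Or.inr h4)
      have hn' : wv (i + 1) (cext (i + 1 + 1) (topOf : P → Tops P) t) + 1 ≤
          ((SO.N1f i (SS i t)).card : ℤ) := by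
        rw [← W1.SS_eq F.h rfl]
        exact hn
      rw [F.Lv_ge.2.2, d] at hn'
      push_cast at hn'
      rw [F.uc0] at g
      push_cast at g
      have hU := F.UE0
      have eN : NE (i + 1) (cext (i + 1 + 1) (topOf : P → Tops P) t) x 0 =
          ((DE (i + 1) (cext (i + 1 + 1) (topOf : P → Tops P) t) x 0).card : ℤ) - 1 := by
        unfold NE
        rw [hU]
        push_cast
        ring
      rw [eN] at g
      have hO := OCs_nonneg (i := i + 1) (C := cext (i + 1 + 1) (topOf : P → Tops P) t)
        (w := w) (v := v)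
      have g5 := two_sq_sub (((DE (i + 1) (cext (i + 1 + 1) (topOf : P → Tops P) t) x 0).card : ℤ) - 1)
      rcases Finset.eq_empty_or_nonempty
        (DE (i + 1) (cext (i + 1 + 1) (topOf : P → Tops P) t) x 0) with h0 | h0
      · left
        rw [h0, card_empty] at g
        push_cast at g
        rw [ho]
        linarith
      · rcases F.light D h0 with h5 | ⟨z, y, s, S, h5, h6⟩
        · left
          rw [ho]
          linarith
        · right; left
          refine ⟨?_, z, y, s, S, h5, h6, F.not_N5s S h6⟩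
          rw [ho]
          linarith
    · exact Or.inr (Or.inr ⟨h4, d⟩)
  · left
    have h3 : m = 3 := by omega
    have hp2 : pen (x 2) = ∅ := by
      rw [hor 2 (by omega)]
      exact F.pen_dbl (by omega) (by omega)
    have hU2 : UE (i + 1) (cext (i + 1 + 1) (topOf : P → Tops P) t) x 2 = ∅ := by
      rw [show m - 1 = 2 by omega] at hlast
      exact hlast
    have h5 : (uc (x 3)).card + (pen (x 3)).card ≤ 2 := by
      have g5 := D.W.dc_le (k := 3) (by omega)
      have g6 := D.deg3' h3
      rcases D.W.uc_le (k := 3) (by omega) with h1 | h1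
      · omega
      · have h6 := F.C.double_up F.h.g.H F.h.g.good t.2 (k := i) (s := hi (i + 1) - 3) (by omega)
          (by omega) (by omega)
        rw [← hor 3 (by omega)] at h6
        have h7 := h6.1 h1
        have hp3 : pen (x 3) = ∅ := by
          rw [hor 3 (by omega)]
          exact F.pen_dbl h7.1 h7.2
        rw [h1, hp3, card_empty]
    have h6 := D.sharp3 h3 hU2 hp2 h5
    rw [ho]
    linarith

/-- no pendant below the first three elements -/
lemma pen_first {k : ℕ} (hk : k ≤ 2) : pen (x k) = ∅ := by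
  classical
  obtain ⟨a, b, hab, ua, ub, d0, d1⟩ := F.twins
  obtain ⟨f1, f2, f3, f4, hor⟩ := F.coord
  have hm := F.hm
  obtain ⟨K, psi, R⟩ := exists_red P (i + 1)
  obtain ⟨w, v, D⟩ := F.dlg R
  have key : ∀ s : P, dc s = {a, b} → pen s = ∅ := by
    intro s hs
    rw [eq_empty_iff_forall_notMem]
    intro q hq
    obtain ⟨h1, h2⟩ := mem_pen.1 hq
    have h3 := mem_dc.2 h1
    rw [hs, mem_insert, mem_singleton] at h3
    rcases h3 with rfl | rfl
    · rw [ua, card_pair D.n01] at h2
      omega
    · rw [ub, card_pair D.n01] at h2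
      omega
  have hk3 : k = 0 ∨ k = 1 ∨ k = 2 := by omega
  rcases hk3 with rfl | rfl | rfl
  · exact key _ d0
  · exact key _ d1
  · rw [hor 2 (by omega)]
    exact F.pen_dbl (by omega) (by omega)

/-- NO HEAVY JOIN if the double over the third pair has two private children -/
theorem no_heavy (R : Red P (i + 1) K psi)
    (hN : (DE (i + 1) (cext (i + 1 + 1) (topOf : P → Tops P) t) x 2).card = 2)
    {z y s : P} (S : K2.SD (i + 1) (topOf : P → Tops P) z y s) :
    (topOf y = t → sa (i + 1) (topOf : P → Tops P) K (uc y) (topOf y) = 0) ∧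
    (topOf s = t → sa (i + 1) (topOf : P → Tops P) K (uc s) (topOf s) = 0) := by
  classical
  obtain ⟨w, v, D⟩ := F.dlg R
  have h := F.h
  have H := h.g.H
  have hm := F.hm
  have hC : ∀ p : P, p ∈ uc y ∨ p ∈ uc s → topOf p = topOf y ∨ topOf p = topOf s := by
    intro p hp
    rcases hp with hp | hp
    · exact Or.inl (h.split (mem_uc.1 hp) (by have := S.ly H; omega)).symm
    · exact Or.inr (h.split (mem_uc.1 hp) (by have := S.lv' H; omega)).symm
  have hsite : ∀ p : P, lev p = i + 1 → topOf p = t → ∃ k, k ≤ m ∧ x k = p := by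
    intro p hp ht
    exact D.W.surj p (mem_cext_of_le h.split (by omega) ht) hp
  refine ⟨fun hy => ?_, fun hs => ?_⟩
  · rw [hy, fg_sa h R D.Q, D.hw, D.hv]
    have ly := S.ly H
    obtain ⟨p, q, hpq, huy⟩ := card_eq_two.1 S.cy
    have mp : p ∈ uc y := by rw [huy]; exact mem_insert_self _ _
    have mq : q ∈ uc y := by rw [huy]; exact mem_insert_of_mem (mem_singleton_self _)
    have tp : topOf p = t := by
      rw [← hy]
      exact (h.split (mem_uc.1 mp) (by omega)).symm
    have tq : topOf q = t := by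
      rw [← hy]
      exact (h.split (mem_uc.1 mq) (by omega)).symm
    obtain ⟨k, hk, rfl⟩ := hsite p (by have := lev_uc H mp; omega) tp
    obtain ⟨l, hl, rfl⟩ := hsite q (by have := lev_uc H mq; omega) tq
    have hkl : k ≠ l := by
      rintro rfl
      exact hpq rfl
    obtain ⟨k, l, hk, hl, hkl, huy⟩ : ∃ k l, k ≤ m ∧ l ≤ m ∧ k < l ∧ uc y = {x k, x l} := by
      rcases Nat.lt_or_ge k l with h1 | h1
      · exact ⟨k, l, hk, hl, h1, huy⟩
      · exact ⟨l, k, hl, hk, by omega, by rw [huy, pair_comm]⟩
    have hd : 1 ≤ dcv (x k) (x l) := by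
      unfold dcv
      refine card_pos.2 ⟨y, mem_filter.2 ⟨mem_univ _, mem_uc.1 ?_, mem_uc.1 ?_⟩⟩
      · rw [huy]; exact mem_insert_self _ _
      · rw [huy]; exact mem_insert_of_mem (mem_singleton_self _)
    rw [D.dn k l hkl hl] at hd
    have hl1 : l = k + 1 := by
      by_contra hcon
      rw [if_neg hcon] at hd
      omega
    subst hl1
    rw [if_pos rfl] at hd
    have hk1 : k ≠ 1 := by
      rintro rfl
      norm_num at hd
    have dis : ∀ a, a ≤ m → (Disjoint ({x a, x (a + 1)} : Finset P) (uc y) ↔ True) → True :=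
      fun _ _ _ => trivial
    have hk3 : k = 0 ∨ k = 2 ∨ 3 ≤ k := by omega
    rcases hk3 with rfl | rfl | hk3
    · rw [if_neg, if_neg]
      · norm_num
      · rw [huy, disjoint_left]
        push Not
        exact ⟨x 1, mem_insert_self _ _, mem_insert_of_mem (mem_singleton_self _)⟩
      · rw [huy, disjoint_left]
        push Not
        exact ⟨x 0, mem_insert_self _ _, mem_insert_self _ _⟩
    · -- the double over the third pair is full
      exfalso
      obtain ⟨a, b, hab, he⟩ := card_eq_two.1 hN
      have ma : a ∈ DE (i + 1) (cext (i + 1 + 1) (topOf : P → Tops P) t) x 2 := by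
        rw [he]; exact mem_insert_self _ _
      have mb : b ∈ DE (i + 1) (cext (i + 1 + 1) (topOf : P → Tops P) t) x 2 := by
        rw [he]; exact mem_insert_of_mem (mem_singleton_self _)
      have key : ∀ a, a ∈ DE (i + 1) (cext (i + 1 + 1) (topOf : P → Tops P) t) x 2 →
          uc a = {y} := by
        intro a ha
        obtain ⟨-, h1, h2⟩ := mem_DE.1 ha
        obtain ⟨l1, l2, y', h3, h4⟩ := mem_PD.1 h1
        obtain ⟨y'', h5⟩ := card_eq_one.1 l2
        have h6 : y' = y'' := by
          have := mem_uc.2 h3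
          rw [h5, mem_singleton] at this
          exact this
        subst h6
        have h7 : uc y' = ed x 2 := by rw [← SO.sit_PD H l1 h5, h2]
        have h8 := D.dn 2 3 (by omega) (by omega)
        norm_num at h8
        unfold dcv at h8
        obtain ⟨y0, h9⟩ := card_eq_one.1 h8
        have e1 : y ∈ ({y0} : Finset P) := by
          rw [← h9, mem_filter]
          refine ⟨mem_univ _, mem_uc.1 ?_, mem_uc.1 ?_⟩
          · rw [huy]; exact mem_insert_self _ _
          · rw [huy]; exact mem_insert_of_mem (mem_singleton_self _)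
        have e2 : y' ∈ ({y0} : Finset P) := by
          rw [← h9, mem_filter]
          refine ⟨mem_univ _, mem_uc.1 ?_, mem_uc.1 ?_⟩
          · rw [h7]; exact mem_insert_self _ _
          · rw [h7]; exact mem_insert_of_mem (mem_singleton_self _)
        rw [mem_singleton] at e1 e2
        rw [h5, e1, e2]
      have ua := key a ma
      have ub := key b mb
      have hsub : ({a, b, z} : Finset P) ⊆ dc y := by
        intro q hq
        rw [mem_insert, mem_insert, mem_singleton] at hq
        rcases hq with rfl | rfl | rfl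
        · exact mem_dc.2 (mem_uc.1 (by rw [ua]; exact mem_singleton_self _))
        · exact mem_dc.2 (mem_uc.1 (by rw [ub]; exact mem_singleton_self _))
        · exact mem_dc.2 (mem_uc.1 S.my)
      have haz : a ≠ z := by
        rintro rfl
        have h1 := S.huc
        rw [ua] at h1
        have h2 := S.ne
        have h3 : s ∈ ({y} : Finset P) := by
          rw [h1]; exact mem_insert_of_mem (mem_singleton_self _)
        exact h2 (mem_singleton.1 h3).symm
      have hbz : b ≠ z := by
        rintro rfl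
        have h1 := S.huc
        rw [ub] at h1
        have h2 := S.ne
        have h3 : s ∈ ({y} : Finset P) := by
          rw [h1]; exact mem_insert_of_mem (mem_singleton_self _)
        exact h2 (mem_singleton.1 h3).symm
      have h1 := card_le_card hsub
      have h2 := dc_card_le H y
      rw [card_insert_of_notMem, card_pair hbz] at h1
      · omega
      · rw [mem_insert, mem_singleton]
        push Not
        exact ⟨hab, haz⟩
    · have hne : ∀ a b, a ≤ m → b ≤ m → a ≠ b → x a ≠ x b := fun a b ha hb hab => D.W.ne ha hb hab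
      have hd0 : Disjoint ({x 0, x 1} : Finset P) (uc y) := by
        rw [huy, disjoint_insert_left, disjoint_singleton_left, mem_insert, mem_singleton,
          mem_insert, mem_singleton]
        push Not
        exact ⟨⟨hne _ _ (by omega) (by omega) (by omega), hne _ _ (by omega) (by omega) (by omega)⟩,
          hne _ _ (by omega) (by omega) (by omega), hne _ _ (by omega) (by omega) (by omega)⟩
      have hd1 : Disjoint ({x 1, x 2} : Finset P) (uc y) := by
        rw [huy, disjoint_insert_left, disjoint_singleton_left, mem_insert, mem_singleton,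
          mem_insert, mem_singleton]
        push Not
        exact ⟨⟨hne _ _ (by omega) (by omega) (by omega), hne _ _ (by omega) (by omega) (by omega)⟩,
          hne _ _ (by omega) (by omega) (by omega), hne _ _ (by omega) (by omega) (by omega)⟩
      rw [if_pos hd0, if_pos hd1]
      norm_num
  · rw [hs, fg_sa h R D.Q, D.hw, D.hv]
    have ls := S.lv' H
    obtain ⟨p, hus⟩ := card_eq_one.1 S.cv
    have mp : p ∈ uc s := by rw [hus]; exact mem_singleton_self _
    have tp : topOf p = t := by
      rw [← hs]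
      exact (h.split (mem_uc.1 mp) (by omega)).symm
    obtain ⟨k, hk, rfl⟩ := hsite p (by have := lev_uc H mp; omega) tp
    have hk3 : 3 ≤ k := by
      by_contra hcon
      have h1 := F.pen_first (k := k) (by omega)
      have h2 : s ∈ pen (x k) := mem_pen.2 ⟨mem_uc.1 mp, S.cv⟩
      rw [h1] at h2
      exact absurd h2 (notMem_empty _)
    have hne : ∀ a b, a ≤ m → b ≤ m → a ≠ b → x a ≠ x b := fun a b ha hb hab => D.W.ne ha hb hab
    rw [hus, if_pos, if_pos]
    · norm_num
    · rw [disjoint_singleton_right, mem_insert, mem_singleton]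
      push Not
      exact ⟨hne _ _ (by omega) (by omega) (by omega), hne _ _ (by omega) (by omega) (by omega)⟩
    · rw [disjoint_singleton_right, mem_insert, mem_singleton]
      push Not
      exact ⟨hne _ _ (by omega) (by omega) (by omega), hne _ _ (by omega) (by omega) (by omega)⟩

/-- THE VALUE WITH THE SHARES IS POSITIVE: all shares of the part are nonnegative, the share of a double
over the first two elements at a join is at least eight, and not all joins are light if `w32 ≠ 0` -/
theorem Lm_sharp (g : P → P → ℤ)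
    (hg : ∀ z ∈ K2.Z2 (i + 1) (topOf : P → Tops P), ∀ y ∈ uc z, (topOf y : Tops P) = t → 0 ≤ g z y)
    (hg8 : ∀ z y s, K2.SD (i + 1) (topOf : P → Tops P) z y s → topOf y = t → uc y = {x 0, x 1} →
      z ∉ So.N5s i (topOf : P → Tops P) → 8 ≤ g z y)
    (hA : 4 ≤ m → (DE (i + 1) (cext (i + 1 + 1) (topOf : P → Tops P) t) x 2).card ≠ 2) :
    0 < Lm ⟨-1, 9, 1, 4, 3, -1, 2, 13, 0⟩ g i (i + 1) t := by
  classical
  have h2 := F.shr_zero ⟨-1, 9, 1, 4, 3, -1, 2, 13, 0⟩
  have hin : ∀ z ∈ K2.Z2 (i + 1) (topOf : P → Tops P),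
      0 ≤ ∑ y ∈ (uc z).filter (fun y => (topOf y : Tops P) = t), g z y :=
    fun z hz => sum_nonneg fun y hy => hg z hz y (mem_filter.1 hy).1 (mem_filter.1 hy).2
  have h3 : 0 ≤ ∑ z ∈ K2.Z2 (i + 1) (topOf : P → Tops P),
      ∑ y ∈ (uc z).filter (fun y => (topOf y : Tops P) = t), g z y := sum_nonneg hin
  unfold Lm
  rw [h2]
  rcases F.tri with h1 | ⟨h1, z, y, s, S, hy, hu, hn⟩ | ⟨h4, h5⟩
  · linarith
  · have hz : z ∈ K2.Z2 (i + 1) (topOf : P → Tops P) :=
      K2.mem_Z2.2 ⟨So.not_cuni (i := i) ⟨S.lz, S.huc, S.hk⟩ F.h.g.H, y, s, S⟩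
    have h6 : 8 ≤ ∑ y ∈ (uc z).filter (fun y => (topOf y : Tops P) = t), g z y := by
      have h7 := single_le_sum (s := (uc z).filter (fun y => (topOf y : Tops P) = t))
        (f := fun y => g z y)
        (fun y hy => hg z hz y (mem_filter.1 hy).1 (mem_filter.1 hy).2)
        (mem_filter.2 ⟨S.my, hy⟩)
      exact (hg8 z y s S hy hu hn).trans h7
    have h7 := single_le_sum (s := K2.Z2 (i + 1) (topOf : P → Tops P))
      (f := fun z => ∑ y ∈ (uc z).filter (fun y => (topOf y : Tops P) = t), g z y) hin hz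
    have h8 : 8 ≤ ∑ z ∈ K2.Z2 (i + 1) (topOf : P → Tops P),
      ∑ y ∈ (uc z).filter (fun y => (topOf y : Tops P) = t), g z y := h6.trans h7
    linarith
  · exact absurd h5 (hA h4)

end FoldDL

end Pool.Agent.GaussPoset.EK
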