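import Pool.Agent.W_448fg_h53.FgJ

/-!
MP_448cb3_co, G2, case B, the windows `j - 1` and `j`: the functional `V8` on the fold rows.
Here `j = i + 1`.  helper53.
-/

namespace Pool.Agent.GaussPoset.EK

set_option linter.unusedSectionVars false

open Finset Win St Polynomial Wd Win.W4
open Pool.Agent.GaussPoset.Win.SO (PN vp mem_PN)
open Pn

universe u

variable {P : Type u} [Fintype P] [PartialOrder P] [DecidableEq P] {r i : ℕ}

variable {m : ℕ} {x : ℕ → P} {c : ℕ → ℤ} {t : Tops P} {lo hi : ℕ → ℕ} {e : ℕ → ℕ → P}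

namespace FoldDL

variable (F : FoldDL P r i t m x c lo hi e)
include F

/-- the functional `V8` is nonnegative on the fold rows -/
theorem v8 : 0 ≤ own ⟨-1, 7, 1, 2, 1, 1, 1, 6, 2⟩ i (i + 1) t := by
  have ho := F.own_form' ⟨-1, 7, 1, 2, 1, 1, 1, 6, 2⟩
  simp only at ho
  have n0 : (0 : ℤ) ≤ (SO.N1f i (SS i t)).card := by positivity
  obtain ⟨h4, h3, hw⟩ := F.Lv_ge
  have hm := F.hm
  rw [ho]
  rcases Nat.lt_or_ge 3 m with h5 | h5
  · have hn := F.N1f_ge (Or.inr h5)
    have hn' : wv (i + 1) (cext (i + 1 + 1) (topOf : P → Tops P) t) + 1 ≤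
        ((SO.N1f i (SS i t)).card : ℤ) := by
      rw [← W1.SS_eq F.h rfl]
      exact hn
    rcases h4 h5 with ⟨d, g⟩ | ⟨d, g⟩ | ⟨d, g⟩
    · rw [d] at hw
      rw [hw] at hn' ⊢
      push_cast at hn' ⊢
      linarith
    · rw [d] at hw
      rw [hw] at hn' ⊢
      push_cast at hn' ⊢
      linarith
    · rw [d] at hw
      rw [hw] at hn' ⊢
      push_cast at hn' ⊢
      linarith
  · have hm3 : m = 3 := by omega
    rcases h3 hm3 with ⟨d, g⟩ | ⟨d, g⟩ | ⟨d, g⟩
    · rw [d] at hw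
      rw [hw]
      push_cast
      linarith
    · rw [d] at hw
      rw [hw]
      push_cast
      linarith
    · rw [d] at hw
      rw [hw]
      push_cast
      linarith

/-- the functional `V8` with the shares -/
theorem v8_all : 0 ≤ 2 * own ⟨-1, 7, 1, 2, 1, 1, 1, 6, 2⟩ i (i + 1) t +
    ∑ p ∈ (PD P i).filter (fun p => (topOf p : Tops P) = t), shr ⟨-1, 7, 1, 2, 1, 1, 1, 6, 2⟩ i p := by
  rw [F.shr_zero]
  have := F.v8
  linarith

end FoldDL

end Pool.Agent.GaussPoset.EK
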