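import Pool.Agent.W_448kf_h15.KfJ
import Pool.Agent.W_448so_h39.FJ
import Pool.Agent.W_448so_h64.SoW
import Pool.Agent.W_448wd_h84.WdO

/-!
MP_448cb3_co, G2, case B, window `j - 1`: the values (3,1), (5,2), (6,2) of a part without pendants
around the window (piece (g), fold rows).  helper53.
-/

namespace Pool.Agent.GaussPoset.Win

set_option linter.unusedSectionVars false

open Finset
open Pool.Agent.GaussPoset.Wd (NJ SS)

universe u

variable {P : Type u} [Fintype P] [PartialOrder P] [DecidableEq P] {r i j : ℕ} {t : P}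
  {lo hi : ℕ → ℕ} {x : ℕ → ℕ → P} {S : Finset P} {psi : P → P}

/-- no upper pendant: no pendants and no chains at all -/
lemma Cm5.no_pend (K : Cm5 P r i t lo hi x S) (hU : PUt i t = ∅) :
    (∀ p ∈ PD P i, p ∈ S → False) ∧ (∀ p ∈ PU P i, p ∈ S → False) ∧ FL i S = ∅ ∧ FU' i S = ∅ ∧
      SO.N5f i S = ∅ := by
  obtain ⟨hc1, hc2⟩ := indiv_21 K.g i le_rfl t K.ht
  have hD : PDt i t = ∅ := by
    rw [hU, card_empty] at hc2
    exact card_eq_zero.1 hc2
  have h1 : ∀ p ∈ PD P i, p ∈ S → False := by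
    intro p hp hpS
    have hl := lev_PD hp
    have : p ∈ PDt i t := mem_PDt.2 ⟨hp, (K.hS p (by omega)).1 hpS⟩
    rw [hD] at this
    exact absurd this (notMem_empty p)
  have h2 : ∀ p ∈ PU P i, p ∈ S → False := by
    intro p hp hpS
    have hl := lev_PU hp
    have : p ∈ PUt i t := mem_PUt.2 ⟨hp, (K.hS p (by omega)).1 hpS⟩
    rw [hU] at this
    exact absurd this (notMem_empty p)
  refine ⟨h1, h2, ?_, ?_, ?_⟩
  · rw [eq_empty_iff_forall_notMem]
    intro w hw
    obtain ⟨hwS, z, hz, hu⟩ := mem_FL.1 hw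
    have hzw : w ⋖ z := by
      rw [← mem_uc, hu]
      exact mem_singleton_self z
    exact h1 z hz (K.part.up hwS hzw)
  · rw [eq_empty_iff_forall_notMem]
    intro w hw
    obtain ⟨hwS, z, hz, hu⟩ := mem_FU'.1 hw
    have hl := lev_FU K.g.H hw
    have hzw : z ⋖ w := by
      rw [← mem_dc, hu]
      exact mem_singleton_self z
    exact h2 z hz (K.part.dn hwS (by omega) hzw)
  · rw [eq_empty_iff_forall_notMem]
    intro z hz
    obtain ⟨hzS, hz1 | hz1⟩ := SO.mem_N5f.1 hz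
    · obtain ⟨hl, p, w, hp, hw, hu, -⟩ := hz1
      have hzp : z ⋖ p := by
        rw [← mem_uc, hu]
        exact mem_insert_self _ _
      exact h1 p hp (K.part.up hzS hzp)
    · obtain ⟨hl, p, w, hp, hw, hu, -⟩ := hz1
      have hzp : p ⋖ z := by
        rw [← mem_dc, hu]
        exact mem_insert_self _ _
      exact h2 p hp (K.part.dn hzS (by omega) hzp)

/-- the sum of the charges: the sum over the triples -/
lemma Cm6.al3_eq (K : Cm6 P r i t lo hi x S) (no : ∀ z : P, lev z = i + 2 → ¬ Hul.Jn z)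
    (hM : Mat P i ∅ psi) (hU : PUt i t = ∅) :
    I2.al 3 (st i S).card (ZS i S) =
      ∑ a ∈ Ioo (lo i) (hi i), (1 - (dcv (x (i + 1) a) (x (i + 1) (a + 1)) : ℤ)) := by
  classical
  obtain ⟨-, -, h3, h4, -⟩ := K.toCm5.no_pend hU
  have K' := K.cmp no
  have h5 := sum_chg (S := S) K.g.H (i := i) (fun _ => True)
  simp only [filter_true] at h5
  rw [so_al3 (K.ps6 hM), ← h5]
  have hf : ∀ z ∈ Chs i S, sit i z ∈ Trs x lo hi i := by
    intro z hz
    unfold Chs at hz
    rw [h3, h4, union_empty, union_empty] at hz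
    unfold Trs
    rw [mem_image]
    rcases mem_union.1 hz with hz | hz
    · obtain ⟨a, a1, a2, a3, -⟩ := ZL_spec K.C K.g K.i1 K.ht K.hS no hz
      exact ⟨a, mem_Ioo.2 ⟨a1, a2⟩, a3.symm⟩
    · obtain ⟨a, a1, a2, a3, -⟩ := ZU_spec K.C K.g K.ht K.hS hz
      exact ⟨a, mem_Ioo.2 ⟨a1, a2⟩, a3.symm⟩
  rw [← sum_fiberwise_of_maps_to hf]
  show ∑ k ∈ Trs x lo hi i, phc i S k = _
  unfold Trs
  rw [sum_image]
  · refine sum_congr rfl fun a ha => ?_
    rw [mem_Ioo] at ha
    exact K'.phc_Tr ha.1 ha.2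
  · intro a ha b hb hab
    rw [mem_coe, mem_Ioo] at ha hb
    exact Tr_inj K.C (by omega) ha.1 ha.2 hb.1 hb.2 hab

/-- the quadratic form of the charges -/
lemma Cm6.QQ_form (K : Cm6 P r i t lo hi x S) (no : ∀ z : P, lev z = i + 2 → ¬ Hul.Jn z)
    (hU : PUt i t = ∅) :
    QQ i S = So.qf (Trs x lo hi i) (fun k l => ¬ Disjoint k l) (phc i S) := by
  obtain ⟨-, -, h3, h4, -⟩ := K.toCm5.no_pend hU
  obtain ⟨N, -, -, h5⟩ := (K.cmp no).QQ_eq
  rw [h5, h3, h4, card_empty]
  simp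

/-- one lost pair, all the other pairs natural -/
lemma Cm6.QQ_one (K : Cm6 P r i t lo hi x S) (no : ∀ z : P, lev z = i + 2 → ¬ Hul.Jn z)
    (hU : PUt i t = ∅) {b : ℕ} (hb : lo i < b) (hb' : b < hi i)
    (h : ∀ a, lo i < a → a < hi i → dcv (x (i + 1) a) (x (i + 1) (a + 1)) = if a = b then 0 else 1) :
    QQ i S = 1 := by
  classical
  rw [K.QQ_form no hU]
  have hph : ∀ a, lo i < a → a < hi i → phc i S (Tr x i a) = if a = b then 1 else 0 := by
    intro a ha ha'
    rw [(K.cmp no).phc_Tr ha ha', h a ha ha']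
    split_ifs <;> norm_num
  have hT : Tr x i b ∈ Trs x lo hi i := mem_image_of_mem _ (mem_Ioo.2 ⟨hb, hb'⟩)
  have hz : ∀ k ∈ Trs x lo hi i, k ≠ Tr x i b → phc i S k = 0 := by
    intro k hk hne
    obtain ⟨a, ha, rfl⟩ := mem_image.1 hk
    rw [mem_Ioo] at ha
    rw [hph a ha.1 ha.2, if_neg]
    rintro rfl
    exact hne rfl
  unfold So.qf
  rw [sum_eq_single (Tr x i b), sum_eq_single (Tr x i b)]
  · rw [if_pos ((K.cmp no).refl _ hT), hph b hb hb', if_pos rfl]
    norm_num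
  · intro l hl hne
    rw [hz l hl hne]
    simp
  · intro hn
    exact absurd hT hn
  · intro k hk hne
    refine sum_eq_zero fun l hl => ?_
    rw [hz k hk hne]
    simp
  · intro hn
    exact absurd hT hn

/-- (5,2) vanishes -/
lemma PS6_be5 (Q : SO.PS6 r i psi S) (hb : 1 ≤ (st i S).card) :
    I2.be 5 (st i S).card (ZS i S) = 0 := by
  unfold I2.be
  rw [coeff_ZS]
  obtain ⟨q, hq⟩ := Q.le_five (n := 5) le_rfl
  rw [hq, ← mul_assoc, ← pow_add, show 2 + ((st i S).card - 1) = (st i S).card + 1 by omega]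
  unfold dd
  rw [PowerSeries.coeff_X_pow_mul', if_neg (by omega)]

end Pool.Agent.GaussPoset.Win
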