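import Pool.Agent.W_448fg_h53.FgA
import Pool.Agent.W_448j6_h22.KbA
import Pool.Agent.W_448so_h63.FB

/-!
MP_448cb3_co, G2, case B, window `j - 1`: the values (3,1), (5,2), (6,2) of a row with the pattern [DL]
at a fold end (piece (g), fold rows).  Here `j = i + 1`.  helper53.
-/

namespace Pool.Agent.GaussPoset.EK

set_option linter.unusedSectionVars false

open Finset Win St Polynomial Wd Win.W4
open Pool.Agent.GaussPoset.Win.SO (PN vp mem_PN)

universe u

variable {P : Type u} [Fintype P] [PartialOrder P] [DecidableEq P] {r i : ℕ}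

variable {m : ℕ} {x : ℕ → P} {c : ℕ → ℤ} {t : Tops P} {lo hi : ℕ → ℕ} {e : ℕ → ℕ → P}

/-- the pattern [DL] at a fold end, level `i + 1` -/
structure FoldDL (P : Type u) [Fintype P] [PartialOrder P] [DecidableEq P] (r i : ℕ) (t : Tops P)
    (m : ℕ) (x : ℕ → P) (c : ℕ → ℤ) (lo hi : ℕ → ℕ) (e : ℕ → ℕ → P) : Prop where
  h : NJ P r (i + 1)
  hi1 : 1 ≤ i
  B : RowB P (i + 1) t m x c 0
  C : Cp.Comp (i + 1) (t : P) lo hi e
  S : StairShape (i + 1) lo hi
  ev : (i + 1) % 2 = 0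
  hm : 3 ≤ m
  hx : x 0 = e (i + 1) ((i + 1) / 2)
  c0 : c 0 = 1
  c1 : c 1 = -1
  c2 : ∀ k, 2 ≤ k → k < m → c k = 0

namespace FoldDL

variable (F : FoldDL P r i t m x c lo hi e)
include F

/-- coordinates -/
lemma coord : hi i + 1 = hi (i + 1) ∧ hi (i + 1) = lo (i + 1) + m ∧ lo i ≤ lo (i + 1) ∧
    lo (i + 1) ≤ lo i + 1 ∧ ∀ k, k ≤ m → x k = e (i + 1) (hi (i + 1) - k) := by
  have hj : 2 ≤ i + 1 := by have := F.hi1; omega
  have h1 := F.S.hi (i + 1) le_rfl
  have h2 := F.S.hi i (by omega)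
  have h3 := F.C.lo_step i (by omega)
  have hev := F.ev
  have hm := F.hm
  obtain ⟨h4, h5⟩ := F.B.orient F.h hj F.C
  refine ⟨by omega, h4, by omega, by omega, ?_⟩
  rcases h5 with h5 | h5
  · exfalso
    have h6 := h5 0 (by omega)
    rw [F.hx, ← h1] at h6
    have := F.C.inj (i + 1) _ _ le_rfl (by omega) le_rfl (by omega) (by omega) h6
    omega
  · exact h5

/-- the numbers of the common lower covers of the doubles -/
lemma dcv_e {a : ℕ} (ha : lo i < a) (ha' : a < hi i) :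
    dcv (e (i + 1) a) (e (i + 1) (a + 1)) = if a = hi i - 1 then 0 else 1 := by
  obtain ⟨h1, h2, h3, h4, h5⟩ := F.coord
  have e1 : e (i + 1) a = x (hi i - a + 1) := by
    rw [h5 _ (by omega)]
    congr 1
    omega
  have e2 : e (i + 1) (a + 1) = x (hi i - a) := by
    rw [h5 _ (by omega)]
    congr 1
    omega
  rw [e1, e2, kf_dcv_comm]
  have h6 := F.B.dcv_x F.h.g.H (k := hi i - a) (l := hi i - a + 1) (by omega) (by omega)
  rw [if_pos rfl] at h6
  by_cases h7 : a = hi i - 1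
  · rw [if_pos h7]
    rw [show hi i - a = 1 by omega] at h6 ⊢
    rw [F.c1] at h6
    norm_num at h6
    exact h6
  · rw [if_neg h7]
    rw [F.c2 _ (by omega) (by omega)] at h6
    norm_num at h6
    exact h6

/-- no pendants around the window -/
lemma noPU : PUt i (t : P) = ∅ := by
  have W := F.C.toWin
  rw [eq_empty_iff_forall_notMem]
  intro p hp
  obtain ⟨hp1, hp2⟩ := mem_PUt.1 hp
  have hl := lev_PU hp1
  obtain ⟨k, rfl⟩ : ∃ k, i = k + 2 := ⟨i - 2, by omega⟩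
  have h1 := F.S.hi (k + 2) (by omega)
  have h2 := F.S.hi (k + 1) (by omega)
  have h3 := F.S.hi k (by omega)
  have h4 := F.S.lo (k + 1) (by omega)
  have h4' : lo (k + 2) = 0 ∨ lo (k + 2) = lo (k + 1) + 1 := h4
  have hev := F.ev
  obtain ⟨g1, g2⟩ := W.PU_cases F.h.g t.2 (by omega) hp1 hp2
  rcases g2 with ⟨g2, g3, -⟩ | ⟨g2, g3, -⟩ <;> omega

/-- the frame of the window `i` -/
lemma cm6 : Cm6 P r i (t : P) lo hi e (cext (i + 2) (topOf : P → Tops P) t) := by
  refine ⟨cm5_no F.h.g F.hi1 F.h.no t F.C.toWin, ?_, ?_⟩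
  · intro a ha ha'
    rw [F.dcv_e ha ha']
    split_ifs <;> norm_num
  · intro p _ _ q hq hqt
    exfalso
    have h1 : q ∈ PUt i (t : P) := mem_PUt.2 ⟨hq, hqt⟩
    rw [F.noPU] at h1
    exact absurd h1 (notMem_empty q)

lemma sites : 1 ≤ (st i (cext (i + 2) (topOf : P → Tops P) t)).card := by
  rw [F.cm6.card_st]
  have := F.C.lo_le i (by omega)
  omega

/-- (3,1) -/
theorem al3 : I2.al 3 (I2.bb i (i + 2) (topOf : P → Tops P) t)
    (I2.VV i (i + 2) (topOf : P → Tops P) t) = 1 := by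
  obtain ⟨h1, h2, h3, h4, h5⟩ := F.coord
  have hm := F.hm
  obtain ⟨psi, hM⟩ := good_mat F.h.g.H (F.h.g.good i (by omega))
  unfold I2.bb I2.VV
  rw [F.cm6.al3_eq F.h.no hM F.noPU, sum_eq_single (hi i - 1)]
  · rw [F.dcv_e (by omega) (by omega), if_pos rfl]
    norm_num
  · intro a ha hne
    rw [mem_Ioo] at ha
    rw [F.dcv_e ha.1 ha.2, if_neg hne]
    norm_num
  · intro hn
    exact absurd (mem_Ioo.2 ⟨by omega, by omega⟩) hn

/-- (5,2) -/
theorem be5 : I2.be 5 (I2.bb i (i + 2) (topOf : P → Tops P) t)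
    (I2.VV i (i + 2) (topOf : P → Tops P) t) = 0 := by
  obtain ⟨psi, hM⟩ := good_mat F.h.g.H (F.h.g.good i (by omega))
  exact PS6_be5 (F.cm6.ps6 hM) F.sites

/-- the form of the charges -/
theorem QQ_eq : Win.QQ i (cext (i + 2) (topOf : P → Tops P) t) = 1 := by
  obtain ⟨h1, h2, h3, h4, h5⟩ := F.coord
  have hm := F.hm
  exact F.cm6.QQ_one F.h.no F.noPU (b := hi i - 1) (by omega) (by omega)
    fun a ha ha' => F.dcv_e ha ha'

/-- (6,2) -/
theorem six : (I2.al 3 (I2.bb i (i + 2) (topOf : P → Tops P) t)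
      (I2.VV i (i + 2) (topOf : P → Tops P) t)) ^ 2 -
    2 * I2.be 6 (I2.bb i (i + 2) (topOf : P → Tops P) t)
      (I2.VV i (i + 2) (topOf : P → Tops P) t) =
    1 + 2 * (SO.N1f i (cext (i + 2) (topOf : P → Tops P) t)).card := by
  obtain ⟨psi, hM⟩ := good_mat F.h.g.H (F.h.g.good i (by omega))
  have h1 := SO.PS6.six' (F.cm6.ps6 hM) F.sites
  rw [F.QQ_eq, (F.cm6.toCm5.no_pend F.noPU).2.2.2.2, card_empty] at h1
  unfold I2.bb I2.VV
  rw [h1]
  norm_num

/-- the profile up to the energy six -/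
theorem prof6 : Win.So.P6 (I2.bb i (i + 2) (topOf : P → Tops P) t)
    (I2.VV i (i + 2) (topOf : P → Tops P) t) := by
  obtain ⟨psi, hM⟩ := good_mat F.h.g.H (F.h.g.good i (by omega))
  have Q := F.cm6.ps6 hM
  exact Win.So.P6.of_prof ((F.cm6.toCm5.ps5 hM).prof5 F.cm6.toCm5.card_PP) Q.top6

end FoldDL

end Pool.Agent.GaussPoset.EK
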