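import Pool.Agent.W_448fg_h53.FgB

/-!
MP_448cb3_co, G2, case B, windows `j - 1` and `j`: a row with the pattern [DL] at a fold end; the private
children below the pair next to the lost pair.  Here `j = i + 1`.  helper53.
-/

namespace Pool.Agent.GaussPoset.EK

set_option linter.unusedSectionVars false

open Finset Win St Polynomial Wd Win.W4
open Pool.Agent.GaussPoset.Win.SO (PN vp mem_PN)

universe u

variable {P : Type u} [Fintype P] [PartialOrder P] [DecidableEq P] {r i j : ℕ}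

variable {m : ℕ} {x : ℕ → P} {c : ℕ → ℤ} {β : ℤ} {t : Tops P} {lo hi : ℕ → ℕ} {e : ℕ → ℕ → P}

/-- `N_2 = 1 + w32` for a row with the pattern [DL] -/
theorem NJ.w3_NE (h : NJ P r j) (hj : 2 ≤ j) (B : RowB P j t m x c β)
    (hm : 3 ≤ m) (hβ : β = 0) (c0 : c 0 = 1) (c1 : c 1 = -1)
    (c2 : ∀ k, 2 ≤ k → k < m → c k = 0) :
    NE j (cext (j + 1) (topOf : P → Tops P) t) x 2 =
      I2.w3 (I2.bb j (j + 1) (topOf : P → Tops P) t)
        (I2.VV j (j + 1) (topOf : P → Tops P) t) + 1 := by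
  classical
  obtain ⟨K, psi, R⟩ := exists_red P j
  have H := h.g.H
  have W := NJ.prow h hj B (by omega)
  have d0 : Df j {x 0, x 1} = 1 := by
    rw [B.row.df 0 1 (by omega) (by omega), if_pos rfl]
    exact c0
  have d1 : Df j {x 1, x 2} = -1 := by
    rw [B.row.df 1 2 (by omega) (by omega), if_pos rfl]
    exact c1
  obtain ⟨w, wK, wd, ew⟩ := R.exL d0
  obtain ⟨v, vK, vd, ev⟩ := R.exU d1
  have hall : ∀ y ∈ K, topOf y = t → ns j y = {x 0, x 1} ∨ ns j y = {x 1, x 2} := by
    intro y hyK ht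
    obtain ⟨p, q, h3, h4, h5, h6⟩ := B.row.pair R H h.split hyK ht
    rcases h6 with ⟨h6, h7⟩ | ⟨-, -, -, h7⟩
    · have hp2 : p = 0 ∨ p = 1 := by
        by_contra h8
        exact h7 (c2 p (by omega) (by omega))
      rcases hp2 with rfl | rfl
      · left; rw [h5, h6]
      · right; rw [h5, h6]
    · exact absurd hβ h7
  have Q : K5 r j K psi (cext (j + 1) (topOf : P → Tops P) t) w v :=
    NJ.k5 h hj R B d0 d1 wK vK wd vd ew ev (p := 0) (q := 1) (by omega) (by omega)
      (mem_insert_self _ _) (mem_insert_self _ _) hall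
  have n01 : x 0 ≠ x 1 := W.ne (by omega) (by omega) (by omega)
  have n12 : x 1 ≠ x 2 := W.ne (by omega) (by omega) (by omega)
  have n02 : x 0 ≠ x 2 := W.ne (by omega) (by omega) (by omega)
  have h1 := Q.w3 ew ev n01 n12 n02
  unfold I2.bb I2.VV
  rw [h1]
  have hd : ∀ k l, k < l → l ≤ m → l ≠ k + 1 → dcv (x k) (x l) = 0 := by
    intro k l hkl hl hne
    have h2 := B.dcv_x H hkl hl
    rw [if_neg hne, hβ] at h2
    split_ifs at h2 <;> exact_mod_cast h2
  have nw : nz j w = ed x 0 := by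
    rw [nz_low Q.lw0, ew]
    rfl
  have nv : nz j v = ed x 1 := by
    rw [nz_upp Q.lv0, ev]
    rfl
  have e1 := W.group hd (fun z => vp j z) (fun T => (if Disjoint (nz j w) T then (1 : ℤ) else 0) -
    (if Disjoint (nz j v) T then (1 : ℤ) else 0))
  have e2 : ∑ z ∈ PN j (cext (j + 1) (topOf : P → Tops P) t),
      vp j z * (Nx j w z - Nx j v z) = NE j (cext (j + 1) (topOf : P → Tops P) t) x 2 := by
    refine Eq.trans ?_ (e1.trans ?_)
    · rfl
    simp only [← NE_eq]
    rw [sum_eq_single 2]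
    · rw [nw, nv, if_pos ((W.disj_ed (by omega) (by omega)).2 (by omega)),
        if_neg (fun h3 => by
          rw [W.disj_ed (by omega) (by omega)] at h3
          omega)]
      norm_num
    · intro k hk hne
      rw [mem_range] at hk
      have g1 : Disjoint (nz j w) (ed x k) ↔ 2 ≤ k := by
        rw [nw, W.disj_ed (by omega) hk]
        omega
      have g2 : Disjoint (nz j v) (ed x k) ↔ 3 ≤ k := by
        rw [nv, W.disj_ed (by omega) hk]
        omega
      simp only [g1, g2]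
      by_cases h3 : 3 ≤ k
      · rw [if_pos h3, if_pos (by omega)]
        ring
      · rw [if_neg h3, if_neg (by omega)]
        ring
    · intro hn
      exact absurd (mem_range.2 (by omega)) hn
  rw [e2]
  ring

namespace FoldDL

variable (F : FoldDL P r i t m x c lo hi e)
include F

/-- a private child of the join over `x 2`, `x 3`: it is below three sites of the window `i` -/
lemma DE_sub (hw : lo i < lo (i + 1) ∨ 4 ≤ m) :
    DE (i + 1) (cext (i + 2) (topOf : P → Tops P) t) x 2 ⊆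
      SO.N1f i (cext (i + 2) (topOf : P → Tops P) t) := by
  classical
  obtain ⟨h1, h2, h3, h4, h5⟩ := F.coord
  have hm := F.hm
  have H := F.h.g.H
  intro z hz
  obtain ⟨hzC, hz1, hz2⟩ := mem_DE.1 hz
  obtain ⟨hl, hc, y, hzy, hy2⟩ := mem_PD.1 hz1
  obtain ⟨y', hy'⟩ := card_eq_one.1 hc
  have hyy : y = y' := by
    rw [← mem_uc, hy', mem_singleton] at hzy
    exact hzy
  subst hyy
  have hs : uc y = ed x 2 := by
    rw [← hz2, sit_low H (by omega), ClE_sts H hl hy']
  have e1 : x 2 = e (i + 1) (hi i - 2 + 1) := by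
    rw [h5 _ (by omega)]
    congr 1
    omega
  have e2 : x 3 = e (i + 1) (hi i - 2) := by
    rw [h5 _ (by omega)]
    congr 1
    omega
  have m2 : y ⋖ x 2 := by
    rw [← mem_uc, hs]
    exact mem_insert_self _ _
  have m3 : y ⋖ x 3 := by
    rw [← mem_uc, hs]
    exact mem_insert_of_mem (mem_singleton_self _)
  rw [e1] at m2
  rw [e2] at m3
  have hZ := low_Tr F.C.toWin F.h.g t.2 F.cm6.hS (a := hi i - 2) (by omega) (by omega) m3 m2
  exact SO.mem_N1f.2 ⟨hzC, Or.inl ⟨by omega, y, hZ.1, hy'⟩⟩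

/-- THE NUMBER OF THE PRIVATE CHILDREN -/
theorem N1f_ge (hw : lo i < lo (i + 1) ∨ 4 ≤ m) :
    I2.w3 (I2.bb (i + 1) (i + 2) (topOf : P → Tops P) t)
      (I2.VV (i + 1) (i + 2) (topOf : P → Tops P) t) + 1 ≤
      (SO.N1f i (cext (i + 2) (topOf : P → Tops P) t)).card := by
  have hj : 2 ≤ i + 1 := by have := F.hi1; omega
  have h1 := NJ.w3_NE F.h hj F.B F.hm rfl F.c0 F.c1 F.c2
  rw [← h1]
  have h2 : (DE (i + 1) (cext (i + 1 + 1) (topOf : P → Tops P) t) x 2).card ≤
      (SO.N1f i (cext (i + 2) (topOf : P → Tops P) t)).card := card_le_card (F.DE_sub hw)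
  unfold NE
  omega

/-- THE VALUE OF THE WINDOW `j - 1` AT A FOLD: `- L31 + 12 L52 - 2 L62 ≥ 2 + 2 w32` -/
theorem G_ge (hw : lo i < lo (i + 1) ∨ 4 ≤ m) :
    2 + 2 * I2.w3 (I2.bb (i + 1) (i + 2) (topOf : P → Tops P) t)
      (I2.VV (i + 1) (i + 2) (topOf : P → Tops P) t) ≤
    - I2.al 3 (I2.bb i (i + 2) (topOf : P → Tops P) t)
        (I2.VV i (i + 2) (topOf : P → Tops P) t) +
      12 * I2.be 5 (I2.bb i (i + 2) (topOf : P → Tops P) t)
        (I2.VV i (i + 2) (topOf : P → Tops P) t) +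
      ((I2.al 3 (I2.bb i (i + 2) (topOf : P → Tops P) t)
          (I2.VV i (i + 2) (topOf : P → Tops P) t)) ^ 2 -
        2 * I2.be 6 (I2.bb i (i + 2) (topOf : P → Tops P) t)
          (I2.VV i (i + 2) (topOf : P → Tops P) t)) := by
  have h1 := F.N1f_ge hw
  rw [F.six, F.al3, F.be5]
  linarith

end FoldDL

end Pool.Agent.GaussPoset.EK
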