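import Pool.Agent.W_448fg_h53.FgC
import Pool.Agent.W_448kf_h15.KfN

/-!
MP_448cb3_co, G2, case B: the exceptional fold row (`j = 6`, four elements, the other end open): there the
window `j - 1` says nothing, but `F > 0` at the window `j`.  helper53.
-/

namespace Pool.Agent.GaussPoset.EK

set_option linter.unusedSectionVars false

open Finset Win St Polynomial Wd Win.W4

universe u

variable {P : Type u} [Fintype P] [PartialOrder P] [DecidableEq P] {r i j : ℕ}

variable {m : ℕ} {x : ℕ → P} {c : ℕ → ℤ} {β : ℤ} {t : Tops P} {lo hi : ℕ → ℕ} {e : ℕ → ℕ → P}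

/-- the exceptional row: the other end is open, four elements -/
theorem FoldDL.exc (F : FoldDL P r i t m x c lo hi e) (hm : m = 3) (hlo : lo i = lo (i + 1))
    (hw3 : I2.w3 (I2.bb (i + 1) (i + 1 + 1) (topOf : P → Tops P) t)
      (I2.VV (i + 1) (i + 1 + 1) (topOf : P → Tops P) t) = 0) :
    2 ≤ Fn (i + 1) (cext (i + 1 + 1) (topOf : P → Tops P) t) := by
  subst hm
  have hj : 2 ≤ i + 1 := by have := F.hi1; omega
  obtain ⟨h1, h2, h3, h4, h5⟩ := F.coord
  refine NJ.F_dl3_open F.h hj F.B rfl F.c0 F.c1 (F.c2 2 le_rfl (by omega)) hw3 ?_ ?_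
  · have h6 := F.C.double_up F.h.g.H F.h.g.good t.2 (k := i) (s := hi (i + 1) - 3) (by omega)
      (by omega) (by omega)
    rw [h5 3 le_rfl]
    rcases uc_card_cases F.h.g.H (x := e (i + 1) (hi (i + 1) - 3))
      (by rw [F.C.lev_e (i + 1) _ le_rfl (by omega) (by omega)]; omega) with h7 | h7
    · exact h7
    · have := h6.1 h7
      omega
  · rw [eq_empty_iff_forall_notMem]
    intro z hz
    obtain ⟨n, hn⟩ : ∃ n, i = n + 1 := ⟨i - 1, by have := F.hi1; omega⟩
    subst hn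
    obtain ⟨-, -, h6⟩ := NJ.letters F.h hj F.B F.C (n := n) rfl hz
    rcases h6 with ⟨h6, -⟩ | ⟨-, h7, h8, -⟩
    · have h7 := h6 0 (by omega)
      rw [h5 0 (by omega)] at h7
      have := F.C.inj (n + 1 + 1) _ _ le_rfl (by omega) (by omega) (by omega) (by omega) h7
      omega
    · have h9 : lo (n + 2) = 0 ∨ lo (n + 2) = lo (n + 1) + 1 := F.S.lo (n + 1) (by omega)
      omega

/-- a fold row with `c 0 = 1`: the pattern [DL], or the pattern with two double edges -/
theorem FoldDL.mk' (h : NJ P r (i + 1)) (hi1 : 1 ≤ i) (B : RowB P (i + 1) t m x c β)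
    (C : Cp.Comp (i + 1) (t : P) lo hi e) (S : StairShape (i + 1) lo hi) (ev : (i + 1) % 2 = 0)
    (hm : 3 ≤ m) (hx : x 0 = e (i + 1) ((i + 1) / 2)) (c0 : c 0 = 1) (hc : c (m - 1) ≠ 1) :
    β = 0 ∧ FoldDL P r i t m x c lo hi e := by
  have key : β = 0 ∧ c 1 = -1 ∧ ∀ k, 2 ≤ k → k < m → c k = 0 := by
    rcases B.pat with ⟨-, h1⟩ | ⟨-, -, h1, -⟩ | ⟨-, -, -, h1⟩ | ⟨-, h0, -, h1, h2⟩ |
      ⟨-, -, h1, -⟩ | ⟨-, -, -, -, -, h1, -⟩ | ⟨h1, -⟩ | ⟨h1, -, -, -, -, h2, -⟩
    · have := h1 0 (by omega)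
      rw [c0] at this
      norm_num at this
    · rw [c0] at h1
      norm_num at h1
    · have := h1 0 (by omega)
      rw [c0] at this
      norm_num at this
    · exact ⟨h0, h1, h2⟩
    · exact absurd h1 hc
    · exact absurd h1 hc
    · omega
    · subst h1
      exact absurd h2 hc
  obtain ⟨hb, c1, c2⟩ := key
  subst hb
  exact ⟨rfl, h, hi1, B, C, S, ev, hm, hx, c0, c1, c2⟩

end Pool.Agent.GaussPoset.EK
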