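import Pool.Agent.W_448fg_h53.FgD
import Pool.Agent.W_448j6_h22.KbH
import Pool.Agent.W_448so_h63.GK
import Pool.Agent.W_448win_h80.W1
import Pool.Agent.W_448t8_h97.TH

/-!
MP_448cb3_co, G2, case B, windows `j - 1` and `j`: THE VALUE of a row with the pattern [DL] at a fold end,
general weights.  Here `j = i + 1`.  helper53.
-/

namespace Pool.Agent.GaussPoset.Win.W4

set_option linter.unusedSectionVars false

open Finset

universe u

variable {P : Type u} [Fintype P] [PartialOrder P] [DecidableEq P] {r i : ℕ}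
variable {psi : P → P} {C K : Finset P} {w v : P} {m : ℕ} {x : ℕ → P}

/-- THE FORM of the pattern [DL], at least five sites, any left end, no upper pendant over the last pair -/
theorem DLg.Lv_ge4 (h : DLg r i K psi C w v m x) (hm4 : 4 ≤ m) (hl : 0 ≤ NE i C x (m - 1)) :
    ((DE i C x 2).card = 0 ∧ 8 ≤ Lv i C) ∨ ((DE i C x 2).card = 1 ∧ -2 ≤ Lv i C) ∨
      ((DE i C x 2).card = 2 ∧ -10 ≤ Lv i C) := by
  have hU2 := h.W.ue_inner (k := 2) (by omega) (by omega)
  have h3 := h.TUs_le hm4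
  have h4 := OCs_nonneg (i := i) (C := C) (w := w) (v := v)
  have h5 := sq_add_nonneg (NE i C x 0 + (uc (x 0)).card - 1)
  have hpos : ∀ k, 3 ≤ k → k < m → 0 ≤ NE i C x k := by
    intro k hk hk'
    rcases Nat.lt_or_ge (k + 1) m with h6 | h6
    · exact h.NE_nonneg (by omega) (by omega)
    · have : k = m - 1 := by omega
      rw [this]
      exact hl
  have p3 := hpos 3 le_rfl (by omega)
  have q1 := QS_bot (NE i C x) (s := 3) (t := m) (by omega)
  have q2 := QS_nonneg (NE i C x) (s := 3 + 1) (t := m) (by omega)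
    fun k hk hk' => hpos k (by omega) (by omega)
  have q3 : (0 : ℤ) ≤ if 3 + 1 < m then 2 * NE i C x 3 * NE i C x (3 + 1) else 0 := by
    split_ifs with h6
    · have := hpos (3 + 1) (by omega) h6
      positivity
    · exact le_rfl
  have q4 := sq_sub_nonneg (NE i C x 3)
  have e2 : NE i C x 2 = ((DE i C x 2).card : ℤ) := by
    unfold NE
    rw [hU2, card_empty]
    push_cast
    ring
  rw [h.L_form hm4, h.Zs_eq hm4, e2, q1]
  have t1 : ((TUs i C x).card : ℤ) ≤ 1 := by exact_mod_cast h3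
  have t2 : (0 : ℤ) ≤ ((TLs i C x).card : ℤ) := by positivity
  rcases h.CH2_num with ⟨d, c⟩ | ⟨d, c⟩ | ⟨d, c⟩
  · refine Or.inl ⟨d, ?_⟩
    rw [d]
    push_cast
    linarith
  · refine Or.inr (Or.inl ⟨d, ?_⟩)
    rw [d]
    push_cast
    nlinarith [sq_nonneg (NE i C x 3)]
  · refine Or.inr (Or.inr ⟨d, ?_⟩)
    rw [d]
    push_cast
    nlinarith [sq_nonneg (NE i C x 3)]

/-- THE FORM of the pattern [DL], four sites -/
theorem DLg.Lv_ge3 (h : DLg r i K psi C w v m x) (hm3 : m = 3) (hU : UE i C x 2 = ∅)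
    (hp : pen (x 2) = ∅) (h3 : (uc (x 3)).card + (pen (x 3)).card ≤ 2) :
    ((DE i C x 2).card = 0 ∧ 10 ≤ Lv i C) ∨ ((DE i C x 2).card = 1 ∧ 2 ≤ Lv i C) ∨
      ((DE i C x 2).card = 2 ∧ -4 ≤ Lv i C) := by
  have g4 := card_le_card (T4_subset i C)
  have g5 := sq_add_nonneg (NE i C x 0 + (uc (x 0)).card - 1)
  have e2 : NE i C x 2 = ((DE i C x 2).card : ℤ) := by
    unfold NE
    rw [hU, card_empty]
    push_cast
    ring
  rw [h.L_form3 hm3, e2, hp, card_empty]
  have hz : ((T4 i C).card : ℤ) ≤ (Z4 i C).card := by exact_mod_cast g4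
  have hsq : ((uc (x 3)).card : ℤ) + (pen (x 3)).card ≤ 2 := by exact_mod_cast h3
  rcases h.CH2_num with ⟨d, c⟩ | ⟨d, c⟩ | ⟨d, c⟩
  · refine Or.inl ⟨d, ?_⟩
    rw [d]
    push_cast
    linarith
  · refine Or.inr (Or.inl ⟨d, ?_⟩)
    rw [d]
    push_cast
    linarith
  · refine Or.inr (Or.inr ⟨d, ?_⟩)
    rw [d]
    push_cast
    linarith

end Pool.Agent.GaussPoset.Win.W4

namespace Pool.Agent.GaussPoset.EK

set_option linter.unusedSectionVars false

open Finset Win St Polynomial Wd Win.W4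
open Pool.Agent.GaussPoset.Win.SO (PN vp mem_PN)

universe u

variable {P : Type u} [Fintype P] [PartialOrder P] [DecidableEq P] {r i : ℕ}

variable {m : ℕ} {x : ℕ → P} {c : ℕ → ℤ} {t : Tops P} {lo hi : ℕ → ℕ} {e : ℕ → ℕ → P}

namespace FoldDL

variable (F : FoldDL P r i t m x c lo hi e)
include F

/-- no upper pendant over the last pair -/
lemma UE_last : UE (i + 1) (cext (i + 1 + 1) (topOf : P → Tops P) t) x (m - 1) = ∅ := by
  classical
  obtain ⟨f1, f2, f3, f4, hor⟩ := F.coord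
  obtain ⟨n, hn⟩ : ∃ n, i = n + 1 := ⟨i - 1, by have := F.hi1; omega⟩
  subst hn
  have h := F.h
  have H := h.g.H
  have C := F.C
  have B := F.B
  have hm := F.hm
  have hj : 2 ≤ n + 1 + 1 := by omega
  have W := NJ.prow h hj B (by omega)
  have s1 := C.lo_step n (by omega)
  have s2 := C.lo_step (n + 1) (by omega)
  have s3 := C.hi_step n (by omega)
  have s4 := C.hi_step (n + 1) (by omega)
  have s5 := C.lo_le n (by omega)
  have s6 := C.lo_le (n + 1) (by omega)
  have hst : lo (n + 1 + 1) = 0 ∨ lo (n + 1 + 1) = lo (n + 1) + 1 := F.S.lo (n + 1) (by omega)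
  rw [eq_empty_iff_forall_notMem]
  intro z hz
  obtain ⟨hzC, hzP, hzs⟩ := mem_UE.1 hz
  obtain ⟨-, u, -, -, -, -, -, hu⟩ := PN_dat H (C := cext (n + 1 + 1 + 1) (topOf : P → Tops P) t)
    (SO.mem_PN.2 ⟨hzC, Or.inr hzP⟩)
  rcases hu with ⟨g1, -⟩ | ⟨-, hlz, hlu, hdz, hsu, -⟩
  · have := lev_PU hzP
    have := lev_PD g1
    omega
  have hux2 : x (m - 1) ⋖ u := by
    rw [← mem_dc, ← hsu, hzs]
    exact (W.mem_ed (by omega) (by omega)).2 (Or.inl rfl)
  have hux3 : x m ⋖ u := by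
    rw [← mem_dc, ← hsu, hzs]
    exact (W.mem_ed (by omega) (by omega)).2 (Or.inr (by omega))
  have huz : u ⋖ z := by rw [← mem_dc, hdz]; exact mem_singleton_self u
  have hx2t : x m ≤ (t : P) := by
    rw [← B.row.kap m (by omega)]
    exact le_topOf (x m)
  have hut : u ≤ (t : P) := Cp.up_le H h.g.good t.2 hx2t
    (by have := B.row.lev_x m (by omega); omega) hux3.le
  have hzt : z ≤ (t : P) := Cp.up_le H h.g.good t.2 hut (by omega) huz.le
  obtain ⟨a, a1, a2, a3⟩ := C.surj u hut (by omega)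
  obtain ⟨b, b1, b2, b3⟩ := C.surj z hzt (by omega)
  have lu : lev u = n + 1 := by omega
  have lz : lev z = n := by omega
  rw [lu] at a1 a2 a3
  rw [lz] at b1 b2 b3
  subst a3
  subst b3
  have hzd := (C.single_down H (k := n) (by omega) b1 b2).1 (lev_PU hzP).2
  have hcz := (C.cov n a b (by omega) a1 a2 b1 b2).1 huz
  have h2 := hor (m - 1) (by omega)
  have h3 := hor m le_rfl
  rw [h2] at hux2
  rw [h3] at hux3
  have c2 := (C.cov (n + 1) (hi (n + 1 + 1) - (m - 1)) a (by omega) (by omega) (by omega) a1 a2).1 hux2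
  have c3 := (C.cov (n + 1) (hi (n + 1 + 1) - m) a (by omega) (by omega) (by omega) a1 a2).1 hux3
  omega

/-- no pendant below the doubles of the last row -/
lemma pen_dbl {a : ℕ} (ha : lo i < a) (ha' : a ≤ hi i) : pen (e (i + 1) a) = ∅ := by
  have hj : 2 ≤ i + 1 := by have := F.hi1; omega
  have hS := NJ.s5c F.h hj F.C
  rw [Nat.add_sub_cancel] at hS
  have hev := F.ev
  rcases hS with ⟨-, -, hS⟩ | ⟨⟨q1, q2, q3, q4⟩, -⟩ | ⟨⟨q1, q2, q3, q4⟩, -⟩
  · exact card_eq_zero.1 (hS a ha ha')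
  · exfalso
    have g1 := F.S.lo (i - 1) (by omega)
    rw [show i - 1 + 1 = i by omega] at g1
    omega
  · exfalso
    have g1 := F.S.hi (i - 1) (by omega)
    have g2 := F.S.hi (i - 2) (by omega)
    omega

/-- the frame of the pattern [DL] at the window `j` -/
lemma dlg {K : Finset P} {psi : P → P} (R : Red P (i + 1) K psi) :
    ∃ w v, DLg r (i + 1) K psi (cext (i + 1 + 1) (topOf : P → Tops P) t) w v m x :=
  NJ.dlg F.h (by have := F.hi1; omega) R F.B F.hm rfl F.c0 F.c1 F.c2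

/-- THE FORM at the window `j`: `N` is the number of the lower pendants over the third pair -/
theorem Lv_ge : (4 ≤ m → ((DE (i + 1) (cext (i + 1 + 1) (topOf : P → Tops P) t) x 2).card = 0 ∧
        8 ≤ Lv (i + 1) (cext (i + 1 + 1) (topOf : P → Tops P) t)) ∨
      ((DE (i + 1) (cext (i + 1 + 1) (topOf : P → Tops P) t) x 2).card = 1 ∧
        -2 ≤ Lv (i + 1) (cext (i + 1 + 1) (topOf : P → Tops P) t)) ∨
      ((DE (i + 1) (cext (i + 1 + 1) (topOf : P → Tops P) t) x 2).card = 2 ∧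
        -10 ≤ Lv (i + 1) (cext (i + 1 + 1) (topOf : P → Tops P) t))) ∧
    (m = 3 → ((DE (i + 1) (cext (i + 1 + 1) (topOf : P → Tops P) t) x 2).card = 0 ∧
        10 ≤ Lv (i + 1) (cext (i + 1 + 1) (topOf : P → Tops P) t)) ∨
      ((DE (i + 1) (cext (i + 1 + 1) (topOf : P → Tops P) t) x 2).card = 1 ∧
        2 ≤ Lv (i + 1) (cext (i + 1 + 1) (topOf : P → Tops P) t)) ∨
      ((DE (i + 1) (cext (i + 1 + 1) (topOf : P → Tops P) t) x 2).card = 2 ∧
        -4 ≤ Lv (i + 1) (cext (i + 1 + 1) (topOf : P → Tops P) t))) ∧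
    wv (i + 1) (cext (i + 1 + 1) (topOf : P → Tops P) t) =
      ((DE (i + 1) (cext (i + 1 + 1) (topOf : P → Tops P) t) x 2).card : ℤ) - 1 := by
  obtain ⟨K, psi, R⟩ := exists_red P (i + 1)
  obtain ⟨w, v, D⟩ := F.dlg R
  obtain ⟨f1, f2, f3, f4, hor⟩ := F.coord
  have hm := F.hm
  have hlast := F.UE_last
  have hU2 : UE (i + 1) (cext (i + 1 + 1) (topOf : P → Tops P) t) x 2 = ∅ := by
    rcases Nat.lt_or_ge 3 m with h4 | h4
    · exact D.W.ue_inner (k := 2) (by omega) (by omega)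
    · rw [show m - 1 = 2 by omega] at hlast
      exact hlast
  refine ⟨fun h4 => D.Lv_ge4 h4 ?_, fun h3 => ?_, ?_⟩
  · unfold NE
    rw [hlast, card_empty]
    push_cast
    omega
  · have hp2 : pen (x 2) = ∅ := by
      rw [hor 2 (by omega)]
      exact F.pen_dbl (by omega) (by omega)
    refine D.Lv_ge3 h3 hU2 hp2 ?_
    have g5 := D.W.dc_le (k := 3) (by omega)
    have g6 := D.deg3' h3
    rcases D.W.uc_le (k := 3) (by omega) with h1 | h1
    · omega
    · have h6 := F.C.double_up F.h.g.H F.h.g.good t.2 (k := i) (s := hi (i + 1) - 3) (by omega)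
        (by omega) (by omega)
      rw [← hor 3 (by omega)] at h6
      have h7 := h6.1 h1
      have hp3 : pen (x 3) = ∅ := by
        rw [hor 3 (by omega)]
        exact F.pen_dbl h7.1 h7.2
      rw [h1, hp3, card_empty]
  · rw [D.w3_eq]
    unfold NE
    rw [hU2, card_empty]
    push_cast
    ring

/-- the part is small -/
lemma small : Small (i + 1) (topOf : P → Tops P) t := by
  rcases F.B.small F.h.g.H F.h.split with h2 | h2
  · exact h2
  · exfalso
    obtain ⟨h3, -, -, -, h4, -⟩ := h2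
    rw [F.c2 (m - 2) (by omega) (by omega)] at h4
    norm_num at h4

/-- (6,4) vanishes -/
lemma w6 : I2.w6 (I2.bb (i + 1) (i + 1 + 1) (topOf : P → Tops P) t)
    (I2.VV (i + 1) (i + 1 + 1) (topOf : P → Tops P) t) = 0 := by
  obtain ⟨K, psi, R⟩ := exists_red P (i + 1)
  have h := F.h
  have hjr : i + 1 ≤ r := by have := h.hr; omega
  exact (K2.PG_star h.g.H hjr (NJ.noQ h (by have := F.hi1; omega))
    (fun m hm => h.g.good m (by omega)) h.split R.mat R.sub
      (K2.star_small h.g.H hjr h.split R F.small)).2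

end FoldDL

end Pool.Agent.GaussPoset.EK
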