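import Pool.Agent.W_448fg_h53.FgE

/-!
MP_448cb3_co, G2, case B, windows `j - 1` and `j`: THE VALUE of a row with the pattern [DL] at a fold end is
positive, general weights.  Here `j = i + 1`.  helper53.
-/

namespace Pool.Agent.GaussPoset.EK

set_option linter.unusedSectionVars false

open Finset Win St Polynomial Wd Win.W4
open Pool.Agent.GaussPoset.Win.SO (PN vp mem_PN)
open Pool.Agent.GaussPoset.Win.Pn (Wt own shr Lm A3 B5 C6 C8 C10 F2 F3 F4 F6)

universe u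

variable {P : Type u} [Fintype P] [PartialOrder P] [DecidableEq P] {r i : ℕ}

variable {m : ℕ} {x : ℕ → P} {c : ℕ → ℤ} {t : Tops P} {lo hi : ℕ → ℕ} {e : ℕ → ℕ → P}

/-- the conditions on the weights for the fold rows -/
structure FoldW (W : Wt) : Prop where
  f24 : W.f2 = W.f4
  f4 : 0 ≤ W.f4
  a6 : 0 ≤ W.a6
  c0 : 0 < W.a3 + W.a6 + 8 * W.f4 - W.f3 + W.f6
  c1 : 0 < W.a3 + 3 * W.a6 - 2 * W.f4
  c2 : 0 < W.a3 + 5 * W.a6 - 10 * W.f4 + W.f3 + W.f6
  d1 : 0 < W.a3 + W.a6 + 2 * W.f4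
  d2 : 0 < W.a3 + W.a6 - 4 * W.f4 + W.f3 + W.f6

namespace FoldDL

variable (F : FoldDL P r i t m x c lo hi e)
include F

/-- the five constants at the window `j - 1` -/
theorem win1 : A3 i t = 1 ∧ B5 i t = 0 ∧
    C6 i t = 1 + 2 * ((SO.N1f i (SS i t)).card : ℤ) ∧ C8 i t = 0 ∧ C10 i t = 0 := by
  have h := F.h
  have a3 := F.al3
  have b5 := F.be5
  have q := F.QQ_eq
  have n5 := (F.cm6.toCm5.no_pend F.noPU).2.2.2.2
  rw [W1.bb_eq h rfl, W1.VV_eq h rfl] at a3 b5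
  rw [W1.SS_eq h rfl] at q n5
  have k5 := Pn.nj_be5 h rfl F.hi1 t
  rw [b5] at k5
  have e1 : Pn.Tws i (SS i t) = ∅ := card_eq_zero.1 (by omega)
  have e2 : SO.F5 i (SS i t) = ∅ := card_eq_zero.1 (by omega)
  obtain ⟨-, -, g6, g8, g10⟩ := W1.vals_open h rfl F.hi1 t e1 e2
  rw [q, n5, card_empty] at g6
  rw [n5, card_empty] at g10
  refine ⟨a3, b5, ?_, g8, ?_⟩
  · unfold C6
    rw [g6]
    push_cast
    ring
  · unfold C10
    rw [g10]
    norm_num

/-- THE FORM OF THE VALUE -/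
theorem own_form (W : Wt) (h24 : W.f2 = W.f4) : own W i (i + 1) t = W.a3 +
    W.a6 * (1 + 2 * ((SO.N1f i (SS i t)).card : ℤ)) +
    W.f4 * Lv (i + 1) (cext (i + 1 + 1) (topOf : P → Tops P) t) +
    W.f3 * wv (i + 1) (cext (i + 1 + 1) (topOf : P → Tops P) t) +
    W.f6 * wv (i + 1) (cext (i + 1 + 1) (topOf : P → Tops P) t) ^ 2 := by
  obtain ⟨g3, g5, g6, g8, g10⟩ := F.win1
  have w6 := F.w6
  have e2 : F2 (i + 1) t + F4 (i + 1) t =
      Lv (i + 1) (cext (i + 1 + 1) (topOf : P → Tops P) t) := rfl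
  have e3 : F3 (i + 1) t = wv (i + 1) (cext (i + 1 + 1) (topOf : P → Tops P) t) := rfl
  have e6 : F6 (i + 1) t = wv (i + 1) (cext (i + 1 + 1) (topOf : P → Tops P) t) ^ 2 := by
    unfold F6
    rw [w6]
    unfold wv I2.bb I2.VV
    ring
  unfold own
  rw [g3, g5, g6, g8, g10, e3, e6, ← e2, h24]
  ring

/-- the lower bounds of the value, and the number `N` of the lower pendants over the third pair -/
theorem own_ge (W : Wt) (h24 : W.f2 = W.f4) (h4 : 0 ≤ W.f4) (h6 : 0 ≤ W.a6) :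
    ((lo i < lo (i + 1) ∨ 4 ≤ m) ∧
      (W.a3 + W.a6 + 8 * W.f4 - W.f3 + W.f6 ≤ own W i (i + 1) t ∨
       W.a3 + 3 * W.a6 - 2 * W.f4 ≤ own W i (i + 1) t ∨
       W.a3 + 5 * W.a6 - 10 * W.f4 + W.f3 + W.f6 ≤ own W i (i + 1) t)) ∨
    (m = 3 ∧ lo i = lo (i + 1) ∧
      (W.a3 + W.a6 + 10 * W.f4 - W.f3 + W.f6 ≤ own W i (i + 1) t ∨
       W.a3 + W.a6 + 2 * W.f4 ≤ own W i (i + 1) t ∨
       W.a3 + W.a6 - 4 * W.f4 + W.f3 + W.f6 ≤ own W i (i + 1) t)) := by
  obtain ⟨l4, l3, hw⟩ := F.Lv_ge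
  obtain ⟨f1, f2, f3, f4, hor⟩ := F.coord
  have hm := F.hm
  have ho := F.own_form W h24
  have n0 : (0 : ℤ) ≤ (SO.N1f i (SS i t)).card := by positivity
  generalize Lv (i + 1) (cext (i + 1 + 1) (topOf : P → Tops P) t) = L at *
  have key : ∀ b : ℤ, b ≤ L → W.f4 * b ≤ W.f4 * L := fun b hb => mul_le_mul_of_nonneg_left hb h4
  have a0 : ∀ b : ℤ, b ≤ (SO.N1f i (SS i t)).card → W.a6 * (1 + 2 * b) ≤
      W.a6 * (1 + 2 * ((SO.N1f i (SS i t)).card : ℤ)) := fun b hb =>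
    mul_le_mul_of_nonneg_left (by linarith) h6
  by_cases hc : lo i < lo (i + 1) ∨ 4 ≤ m
  · refine Or.inl ⟨hc, ?_⟩
    have hn := F.N1f_ge hc
    have hn' : wv (i + 1) (cext (i + 1 + 1) (topOf : P → Tops P) t) + 1 ≤
        ((SO.N1f i (SS i t)).card : ℤ) := by
      rw [← W1.SS_eq F.h rfl]
      exact hn
    have hall : ((DE (i + 1) (cext (i + 1 + 1) (topOf : P → Tops P) t) x 2).card = 0 ∧ 8 ≤ L) ∨
      ((DE (i + 1) (cext (i + 1 + 1) (topOf : P → Tops P) t) x 2).card = 1 ∧ -2 ≤ L) ∨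
      ((DE (i + 1) (cext (i + 1 + 1) (topOf : P → Tops P) t) x 2).card = 2 ∧ -10 ≤ L) := by
      rcases Nat.lt_or_ge 3 m with h3 | h3
      · exact l4 h3
      · rcases l3 (by omega) with ⟨d, g⟩ | ⟨d, g⟩ | ⟨d, g⟩
        · exact Or.inl ⟨d, by linarith⟩
        · exact Or.inr (Or.inl ⟨d, by linarith⟩)
        · exact Or.inr (Or.inr ⟨d, by linarith⟩)
    rcases hall with ⟨d, g⟩ | ⟨d, g⟩ | ⟨d, g⟩
    · left
      rw [hw, d] at ho hn'
      push_cast at ho hn'
      have := key _ g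
      have := a0 0 (by linarith)
      linarith
    · right; left
      rw [hw, d] at ho hn'
      push_cast at ho hn'
      have := key _ g
      have := a0 1 (by linarith)
      linarith
    · right; right
      rw [hw, d] at ho hn'
      push_cast at ho hn'
      have := key _ g
      have := a0 2 (by linarith)
      linarith
  · refine Or.inr ⟨by omega, by omega, ?_⟩
    have := a0 0 n0
    rcases l3 (by omega) with ⟨d, g⟩ | ⟨d, g⟩ | ⟨d, g⟩
    · left
      rw [hw, d] at ho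
      push_cast at ho
      have := key _ g
      linarith
    · right; left
      rw [hw, d] at ho
      push_cast at ho
      have := key _ g
      linarith
    · right; right
      rw [hw, d] at ho
      push_cast at ho
      have := key _ g
      linarith

/-- THE VALUE IS POSITIVE -/
theorem own_pos {W : Wt} (hW : FoldW W) : 0 < own W i (i + 1) t := by
  have c0 := hW.c0
  have c1 := hW.c1
  have c2 := hW.c2
  have d1 := hW.d1
  have d2 := hW.d2
  have f4 := hW.f4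
  rcases F.own_ge W hW.f24 hW.f4 hW.a6 with ⟨-, h | h | h⟩ | ⟨-, -, h | h | h⟩ <;> linarith

/-- no share of a pendant -/
lemma shr_zero (W : Wt) :
    ∑ p ∈ (PD P i).filter (fun p => (topOf p : Tops P) = t), shr W i p = 0 := by
  refine sum_eq_zero fun p hp => ?_
  exfalso
  rw [mem_filter] at hp
  have hl := lev_PD hp.1
  have h1 : Split (i + 2) (topOf : P → Tops P) := W1.split F.h rfl
  exact (F.cm6.toCm5.no_pend F.noPU).1 p hp.1
    (mem_cext_of_le h1 (by omega) hp.2)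

/-- THE VALUE WITH THE SHARES IS POSITIVE -/
theorem Lm_pos {W : Wt} (hW : FoldW W) (g : P → P → ℤ)
    (hg : ∀ z ∈ K2.Z2 (i + 1) (topOf : P → Tops P), ∀ y ∈ uc z, (topOf y : Tops P) = t → 0 ≤ g z y) :
    0 < Lm W g i (i + 1) t := by
  have h1 := F.own_pos hW
  have h2 := F.shr_zero W
  have h3 : 0 ≤ ∑ z ∈ K2.Z2 (i + 1) (topOf : P → Tops P),
      ∑ y ∈ (uc z).filter (fun y => (topOf y : Tops P) = t), g z y :=
    sum_nonneg fun z hz => sum_nonneg fun y hy => hg z hz y (mem_filter.1 hy).1 (mem_filter.1 hy).2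
  unfold Lm
  rw [h2]
  linarith

end FoldDL

/-- the weights of helper96 (no D word) -/
example : FoldW ⟨-20, 175, 20, 60, 25, 5, 5, 35, 16⟩ := by
  constructor <;> norm_num

/-- the weights V1 of helper96 -/
example : FoldW ⟨-16, 144, 16, 40, 24, 12, 12, 96, 25⟩ := by
  constructor <;> norm_num

end Pool.Agent.GaussPoset.EK
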