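import Pool.Agent.W_448fg_h53.FgG

/-!
MP_448cb3_co, G2, case B, window `j`: a row with the pattern [DL] at a fold end, the twins over the first
two elements.  helper53.
-/

namespace Pool.Agent.GaussPoset.EK

set_option linter.unusedSectionVars false

open Finset Win St Polynomial Wd Win.W4
open Pool.Agent.GaussPoset.Win.SO (PN vp mem_PN)

universe u

variable {P : Type u} [Fintype P] [PartialOrder P] [DecidableEq P] {r i j : ℕ}

variable {m : ℕ} {x : ℕ → P} {c : ℕ → ℤ} {t : Tops P} {lo hi : ℕ → ℕ} {e : ℕ → ℕ → P}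

namespace FoldDL

variable (F : FoldDL P r i t m x c lo hi e)
include F

/-- the fold end has one upper cover -/
lemma uc0 : (uc (x 0)).card = 1 := by
  obtain ⟨f1, f2, f3, f4, hor⟩ := F.coord
  have hm := F.hm
  have hl : lev (x 0) = i + 1 := F.B.row.lev_x 0 (by omega)
  rcases uc_card_cases F.h.g.H (x := x 0) (by omega) with h1 | h1
  · exact h1
  · exfalso
    have h6 := F.C.double_up F.h.g.H F.h.g.good t.2 (k := i) (s := hi (i + 1)) (by omega)
      (by omega) (by omega)
    have h7 := hor 0 (by omega)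
    rw [Nat.sub_zero] at h7
    rw [h7] at h1
    have := h6.1 h1
    omega

/-- one upper pendant over the first pair -/
lemma UE0 : (UE (i + 1) (cext (i + 1 + 1) (topOf : P → Tops P) t) x 0).card = 1 := by
  classical
  obtain ⟨f1, f2, f3, f4, hor⟩ := F.coord
  have hev := F.ev
  have hi1 := F.hi1
  obtain ⟨n, hn⟩ : ∃ n, i = n + 1 := ⟨i - 1, by omega⟩
  subst hn
  have h := F.h
  have H := h.g.H
  have C := F.C
  have B := F.B
  have hm := F.hm
  have W := NJ.prow h (by omega) B (by omega)
  have g0 := F.S.hi n (by omega)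
  have g1 := F.S.hi (n + 1) (by omega)
  have g2 := F.S.hi (n + 1 + 1) (by omega)
  have l0 := C.lo_le n (by omega)
  have l1 := C.lo_le (n + 1) (by omega)
  have l2 := C.lo_le (n + 1 + 1) (by omega)
  have hx0 := hor 0 (by omega)
  have hx1 := hor 1 (by omega)
  rw [Nat.sub_zero] at hx0
  have c0 : x 0 ⋖ e (n + 1) (hi (n + 1)) := by
    rw [hx0]
    exact (C.cov (n + 1) _ _ (by omega) (by omega) (by omega) (by omega) (by omega)).2 (by omega)
  have c1 : x 1 ⋖ e (n + 1) (hi (n + 1)) := by
    rw [hx1]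
    exact (C.cov (n + 1) _ _ (by omega) (by omega) (by omega) (by omega) (by omega)).2 (by omega)
  have c2 : e (n + 1) (hi (n + 1)) ⋖ e n (hi n) :=
    (C.cov n _ _ (by omega) (by omega) (by omega) (by omega) (by omega)).2 (by omega)
  have hne : x 0 ≠ x 1 := W.ne (by omega) (by omega) (by omega)
  have hdu : dc (e (n + 1) (hi (n + 1))) = {x 0, x 1} := by
    refine (eq_of_subset_of_card_le ?_ ?_).symm
    · intro y hy
      rw [mem_insert, mem_singleton] at hy
      rcases hy with rfl | rfl
      · exact mem_dc.2 c0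
      · exact mem_dc.2 c1
    · rw [card_pair hne]
      exact dc_card_le H _
  have hdz : (dc (e n (hi n))).card = 1 :=
    (C.single_down H (k := n) (by omega) (by omega) le_rfl).2 (by omega)
  obtain ⟨u, hu⟩ := card_eq_one.1 hdz
  have huu : u = e (n + 1) (hi (n + 1)) := by
    have := mem_dc.2 c2
    rw [hu, mem_singleton] at this
    exact this.symm
  subst huu
  have hlz : lev (e n (hi n)) = n := C.lev_e n _ (by omega) (by omega) le_rfl
  have hzt : e n (hi n) ≤ (t : P) := C.le_t n _ (by omega) (by omega) le_rfl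
  have hz : e n (hi n) ∈ UE (n + 1 + 1) (cext (n + 1 + 1 + 1) (topOf : P → Tops P) t) x 0 := by
    refine mem_UE.2 ⟨?_, mem_PU.2 ⟨by omega, hdz, _, c2, ?_⟩, ?_⟩
    · exact mem_cext_of_le h.split (by omega) (Hul.top_unique (h.nj (by omega)) (topOf _).2 t.2
        (le_topOf _) hzt |> Subtype.ext)
    · rw [hdu, card_pair hne]
    · rw [SO.sit_PU H (by omega) hu, hdu]
      rfl
  have h1 := W.UE_one (i := n + 1 + 1) (C := cext (n + 1 + 1 + 1) (topOf : P → Tops P) t) 0
  have h2 := card_pos.2 ⟨_, hz⟩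
  omega

/-- the twins over the first two elements -/
lemma twins : ∃ a b : P, a ≠ b ∧ uc a = {x 0, x 1} ∧ uc b = {x 0, x 1} ∧ dc (x 0) = {a, b} ∧
    dc (x 1) = {a, b} := by
  classical
  obtain ⟨K, psi, R⟩ := exists_red P (i + 1)
  obtain ⟨w, v, D⟩ := F.dlg R
  have H := F.h.g.H
  have hm := F.hm
  have h1 := D.dn 0 1 (by omega) (by omega)
  rw [if_pos rfl, if_pos rfl] at h1
  have h2 := D.deg0
  have h3 := D.deg1
  unfold dcv at h1
  obtain ⟨a, b, hab, he⟩ := card_eq_two.1 h1
  have ma : a ⋖ x 0 ∧ a ⋖ x 1 := by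
    have : a ∈ ({a, b} : Finset P) := mem_insert_self _ _
    rw [← he, mem_filter] at this
    exact this.2
  have mb : b ⋖ x 0 ∧ b ⋖ x 1 := by
    have : b ∈ ({a, b} : Finset P) := mem_insert_of_mem (mem_singleton_self _)
    rw [← he, mem_filter] at this
    exact this.2
  have hne : x 0 ≠ x 1 := D.n01
  have key : ∀ y : P, y ⋖ x 0 → y ⋖ x 1 → uc y = {x 0, x 1} := by
    intro y h4 h5
    refine (eq_of_subset_of_card_le ?_ ?_).symm
    · intro s hs
      rw [mem_insert, mem_singleton] at hs
      rcases hs with rfl | rfl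
      · exact mem_uc.2 h4
      · exact mem_uc.2 h5
    · rw [card_pair hne]
      exact uc_card_le H _
  have key2 : ∀ s : P, (dc s).card = 2 → a ⋖ s → b ⋖ s → dc s = {a, b} := by
    intro s hs h4 h5
    refine (eq_of_subset_of_card_le ?_ ?_).symm
    · intro y hy
      rw [mem_insert, mem_singleton] at hy
      rcases hy with rfl | rfl
      · exact mem_dc.2 h4
      · exact mem_dc.2 h5
    · rw [card_pair hab, hs]
  exact ⟨a, b, hab, key a ma.1 ma.2, key b mb.1 mb.2, key2 _ h2 ma.1 mb.1, key2 _ h3 ma.2 mb.2⟩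

end FoldDL

end Pool.Agent.GaussPoset.EK
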