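import Pool.Agent.W_448fg_h53.FgH

/-!
MP_448cb3_co, G2, case B: a row with the pattern [DL] at a fold end: a private child of the twins over the
first two elements forces a light join below the twins, or an inner element over three sites.  helper53.
-/

namespace Pool.Agent.GaussPoset.EK

set_option linter.unusedSectionVars false

open Finset Win St Polynomial Wd Win.W4
open Pool.Agent.GaussPoset.Win.SO (PN vp mem_PN)

universe u

variable {P : Type u} [Fintype P] [PartialOrder P] [DecidableEq P] {r i j : ℕ}

variable {m : ℕ} {x : ℕ → P} {c : ℕ → ℤ} {t : Tops P} {lo hi : ℕ → ℕ} {e : ℕ → ℕ → P}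

variable {K : Finset P} {psi : P → P} {w v : P}

/-- an inner element over three sites with a single cover and a double over the first pair -/
lemma OCs_two (D : DLg r j K psi (cext (j + 1) (topOf : P → Tops P) t) w v m x) {q y s : P}
    (hq : q ∈ cext (j + 1) (topOf : P → Tops P) t) (hl : lev q = j + 2) (huq : uc q = {y, s})
    (hy : uc y = {x 0, x 1}) (hs : (uc s).card = 1) (hd : Disjoint (uc y) (uc s)) :
    2 ≤ OCs j (cext (j + 1) (topOf : P → Tops P) t) w v := by
  classical
  have H := D.W.H
  have hst : sts j q = uc y ∪ uc s := by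
    rw [Rd.sts_bi H hl, huq, biUnion_insert, singleton_biUnion]
  have hsit : sit j q = uc y ∪ uc s := by rw [sit_low H (by omega), hst]
  have hup : up j q = 3 := by
    rw [← card_sts, hst, card_union_of_disjoint hd, hs, hy, card_pair D.n01]
  have hZ : q ∈ Z4 j (cext (j + 1) (topOf : P → Tops P) t) :=
    mem_Z4.2 (Or.inl (mem_ZL.2 ⟨hq, hl, hup⟩))
  have hT : q ∉ T4 j (cext (j + 1) (topOf : P → Tops P) t) := by
    intro h1
    rcases mem_T4.1 h1 with ⟨-, h2⟩ | ⟨h2, -⟩
    · have := h2 s (by rw [huq]; exact mem_insert_of_mem (mem_singleton_self _))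
      omega
    · have := (mem_ZU.1 h2).2.1
      omega
  have hN : Nx j w q = 0 ∧ Nx j v q = 0 := by
    have h0 : x 0 ∈ sit j q := by
      rw [hsit, hy]
      exact mem_union_left _ (mem_insert_self _ _)
    have h1 : x 1 ∈ sit j q := by
      rw [hsit, hy]
      exact mem_union_left _ (mem_insert_of_mem (mem_singleton_self _))
    constructor
    · unfold Nx
      rw [if_neg]
      intro hdis
      rw [D.nw] at hdis
      exact disjoint_left.1 hdis (mem_insert_self _ _) h0
    · unfold Nx
      rw [if_neg]
      intro hdis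
      rw [D.nv] at hdis
      exact disjoint_left.1 hdis (mem_insert_self _ _) h1
  unfold OCs
  have h2 := single_le_sum (s := Z4 j (cext (j + 1) (topOf : P → Tops P) t) \
      T4 j (cext (j + 1) (topOf : P → Tops P) t))
    (f := fun z => (2 : ℤ) - 2 * (tz j z * (Nx j w z - Nx j v z)))
    (fun z _ => by
      have := tz_le (i := j) (w := w) (v := v) z
      linarith) (mem_sdiff.2 ⟨hZ, hT⟩)
  refine le_trans ?_ h2
  show (2 : ℤ) ≤ 2 - 2 * (tz j q * (Nx j w q - Nx j v q))
  rw [hN.1, hN.2]
  norm_num

namespace FoldDL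

variable (F : FoldDL P r i t m x c lo hi e)
include F

/-- a private child of the twins: a light join below the twins, or an inner element over three sites -/
theorem light (D : DLg r (i + 1) K psi (cext (i + 1 + 1) (topOf : P → Tops P) t) w v m x)
    (hDE : (DE (i + 1) (cext (i + 1 + 1) (topOf : P → Tops P) t) x 0).Nonempty) :
    2 ≤ OCs (i + 1) (cext (i + 1 + 1) (topOf : P → Tops P) t) w v ∨
      ∃ z y s, K2.SD (i + 1) (topOf : P → Tops P) z y s ∧ topOf y = t ∧ uc y = {x 0, x 1} := by
  classical
  have h := F.h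
  have H := h.g.H
  have hm := F.hm
  obtain ⟨a, b, hab, ua, ub, d0, d1⟩ := F.twins
  have hne : x 0 ≠ x 1 := D.n01
  have l0 : lev (x 0) = i + 1 := F.B.row.lev_x 0 (by omega)
  have la : lev a = i + 2 := by
    have := lev_uc H (show x 0 ∈ uc a by rw [ua]; exact mem_insert_self _ _)
    omega
  have lb : lev b = i + 2 := by
    have := lev_uc H (show x 0 ∈ uc b by rw [ub]; exact mem_insert_self _ _)
    omega
  -- the private child
  obtain ⟨z, hz⟩ := hDE
  obtain ⟨hzC, hzP, hzs⟩ := mem_DE.1 hz
  obtain ⟨lz, hz1, y, hzy, hy2⟩ := mem_PD.1 hzP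
  obtain ⟨y', hy'⟩ := card_eq_one.1 hz1
  have hyy : y = y' := by
    have := mem_uc.2 hzy
    rw [hy', mem_singleton] at this
    exact this
  subst hyy
  have huy : uc y = {x 0, x 1} := by
    rw [← SO.sit_PD H lz hy', hzs]
    rfl
  have hyab : y = a ∨ y = b := by
    have h1 : y ∈ dc (x 0) := mem_dc.2 (mem_uc.1 (by rw [huy]; exact mem_insert_self _ _))
    rw [d0, mem_insert, mem_singleton] at h1
    exact h1
  -- the twins have at most one common child
  have hdab : dcv a b ≤ 1 := by
    unfold dcv
    have h1 : univ.filter (fun q => q ⋖ a ∧ q ⋖ b) ⊆ (dc y).erase z := by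
      intro q hq
      rw [mem_filter] at hq
      rw [mem_erase, mem_dc]
      refine ⟨?_, ?_⟩
      · rintro rfl
        have e1 := mem_uc.2 hq.2.1
        have e2 := mem_uc.2 hq.2.2
        rw [hy', mem_singleton] at e1 e2
        exact hab (e1.trans e2.symm)
      · rcases hyab with rfl | rfl
        · exact hq.2.1
        · exact hq.2.2
    have h2 := card_le_card h1
    rw [card_erase_of_mem (mem_dc.2 hzy)] at h2
    have h3 := dc_card_le H y
    omega
  have huab : ucv a b = 2 := by
    unfold ucv
    have h1 : univ.filter (fun q => a ⋖ q ∧ b ⋖ q) = {x 0, x 1} := by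
      ext q
      rw [mem_filter, ← mem_uc, ← mem_uc, ua, ub]
      simp
    rw [h1, card_pair hne]
  have hDf : Df (i + 2) {a, b} ≠ 0 := by
    rw [Df_pair H la hab, huab]
    intro h1
    have : (dcv a b : ℤ) ≤ 1 := by exact_mod_cast hdab
    push_cast at h1
    linarith
  -- the twins are not a piece
  have hp : ∃ u ∈ ({a, b} : Finset P), ∃ s, lev s = i + 2 ∧ s ∉ ({a, b} : Finset P) ∧
      dcv u s ≠ 0 := by
    by_contra hcon
    push Not at hcon
    refine hDf (Mp.piece_pair H (by have := h.hr; omega) hab ⟨?_, ?_⟩)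
    · intro u hu
      rw [mem_insert, mem_singleton] at hu
      rcases hu with rfl | rfl
      · exact mem_lv.2 la
      · exact mem_lv.2 lb
    · intro u hu s hs hsn
      have h1 := hcon u hu s hs hsn
      have hlu : lev u = i + 2 ∧ uc u = {x 0, x 1} := by
        rw [mem_insert, mem_singleton] at hu
        rcases hu with rfl | rfl
        · exact ⟨la, ua⟩
        · exact ⟨lb, ub⟩
      have hus : u ≠ s := by
        rintro rfl
        exact hsn hu
      have h2 : ucv u s = 0 := by
        unfold ucv
        rw [card_eq_zero, filter_eq_empty_iff]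
        rintro q - ⟨h3, h4⟩
        rw [← mem_uc, hlu.2, mem_insert, mem_singleton] at h3
        rcases h3 with rfl | rfl
        · exact hsn (by rw [← d0]; exact mem_dc.2 h4)
        · exact hsn (by rw [← d1]; exact mem_dc.2 h4)
      rw [Df_pair H hlu.1 hus, h1, h2]
      simp
  obtain ⟨u, hu, s, ls, hsn, hd⟩ := hp
  have hlu : lev u = i + 2 ∧ uc u = {x 0, x 1} ∧ u ∈ dc (x 0) := by
    refine ⟨?_, ?_, by rw [d0]; exact hu⟩
    · rw [mem_insert, mem_singleton] at hu
      rcases hu with rfl | rfl
      · exact la
      · exact lb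
    · rw [mem_insert, mem_singleton] at hu
      rcases hu with rfl | rfl
      · exact ua
      · exact ub
  obtain ⟨lu, uu, du⟩ := hlu
  have hus : u ≠ s := by
    rintro rfl
    exact hsn hu
  obtain ⟨q, hqu, hqs⟩ := StA_of_dcv (v := u) (v' := s) (by omega)
  have lq := lev_cov H hqu
  have hq : uc q = {u, s} := by
    refine (eq_of_subset_of_card_le ?_ ?_).symm
    · intro p hp
      rw [mem_insert, mem_singleton] at hp
      rcases hp with rfl | rfl
      · exact mem_uc.2 hqu
      · exact mem_uc.2 hqs
    · rw [card_pair hus]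
      exact uc_card_le H _
  have hdis : Disjoint (uc u) (uc s) := by
    rw [disjoint_left]
    intro p hp1 hp2
    rw [uu, mem_insert, mem_singleton] at hp1
    rcases hp1 with rfl | rfl
    · exact hsn (by rw [← d0]; exact mem_dc.2 (mem_uc.1 hp2))
    · exact hsn (by rw [← d1]; exact mem_dc.2 (mem_uc.1 hp2))
  have cu : (uc u).card = 2 := by rw [uu, card_pair hne]
  have cs : (uc s).card = 1 := by
    rcases uc_card_cases H (x := s) (by omega) with h1 | h1
    · exact h1
    · exfalso
      obtain ⟨p, hp1, hp2⟩ := NJ.noQ h (by have := F.hi1; omega) q (by omega) u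
        (mem_uc.2 hqu) s (mem_uc.2 hqs) hus cu h1
      exact disjoint_left.1 hdis hp1 hp2
  have tu : topOf u = t := by
    have h1 := h.split (x := u) (y := x 0) (mem_dc.1 du) (by omega)
    rw [h1]
    exact F.B.row.kap 0 (by omega)
  by_cases ts : topOf s = t
  · left
    refine OCs_two D (q := q) (y := u) (s := s) ?_ (by omega) hq uu cs hdis
    rw [mem_cext]
    intro p hp hlp
    rcases eq_or_lt_of_le hp with h1 | h1
    · rw [← h1] at hlp
      omega
    · obtain ⟨p', hp', hp2⟩ := Hul.exists_cov h1
      rw [← mem_uc, hq, mem_insert, mem_singleton] at hp'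
      rcases hp' with rfl | rfl
      · rw [← tu]
        exact (Split.le (l := i + 1 + 1) (κ := (topOf : P → Tops P)) h.split _ hp2 (by omega)).symm
      · rw [← ts]
        exact (Split.le (l := i + 1 + 1) (κ := (topOf : P → Tops P)) h.split _ hp2 (by omega)).symm
  · right
    exact ⟨q, u, s, ⟨by omega, hq, fun h1 => ts (by rw [← h1]; exact tu), cu, cs⟩, tu, uu⟩

end FoldDL

end Pool.Agent.GaussPoset.EK
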