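import Pool.Agent.W_448fg_h53.FgK
import Pool.Agent.W_448fin_h16.FnQ

/-!
MP_448cb3_co, G2, case B, the windows `j - 1` and `j`: THE LEAF `HFoldV` ([DL] at a fold end).
Here `j = i + 1`.  helper53.
-/

namespace Pool.Agent.GaussPoset.EK

set_option linter.unusedSectionVars false

open Finset Win St Polynomial Wd Win.W4

universe u

variable {P : Type u} [Fintype P] [PartialOrder P] [DecidableEq P]

/-- THE LEAF: [DL] at a fold end -/
theorem hfoldv : HFoldV P := by
  classical
  intro r i K psi t m x c β lo hi e hi1 hC R B C S ev hm hx hD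
  obtain ⟨hb, c0, c1, c2⟩ := hD
  subst hb
  have F : FoldDL P r i t m x c lo hi e := ⟨hC.nj, hi1, B, C, S, ev, hm, hx, c0, c1, c2⟩
  have hz := F.shr_zero Wsh
  have hV : Vt i t = 2 * Pn.own Wsh i (i + 1) t := by
    unfold Vt
    rw [hz, add_zero]
  obtain ⟨w, v, D⟩ := F.dlg R
  rcases F.tri with h1 | ⟨h1, z, y, s, Sd, hy, huy, h5⟩ | ⟨hm4, hN⟩
  · left
    rw [hV]
    unfold Wsh
    linarith
  · right; right
    refine ⟨?_, z, y, s, Sd, hy, ?_, h5⟩
    · rw [hV]
      unfold Wsh
      linarith
    · rw [hy, fg_sa hC.nj R D.Q, D.hw, D.hv, huy, if_neg, if_neg]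
      · norm_num
      · rw [disjoint_left]
        push Not
        exact ⟨x 1, mem_insert_self _ _, mem_insert_of_mem (mem_singleton_self _)⟩
      · rw [disjoint_left]
        push Not
        exact ⟨x 0, mem_insert_self _ _, mem_insert_self _ _⟩
  · right; left
    refine ⟨?_, ?_, ?_⟩
    · have h2 := F.own_two hm4 hN
      rw [hV]
      unfold Wsh
      linarith
    · have e3 : v3 (i + 1) t = wv (i + 1) (cext (i + 1 + 1) (topOf : P → Tops P) t) := rfl
      have hU2 := D.W.ue_inner (k := 2) (by omega) (by omega)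
      rw [e3, D.w3_eq]
      unfold NE
      rw [hU2, card_empty, hN]
      norm_num
    · intro z y s Sd hys
      obtain ⟨g1, g2⟩ := F.no_heavy R hN Sd
      rcases hys with h6 | h6
      · rw [g1 h6, zero_mul]
      · rw [g2 h6, mul_zero]

end Pool.Agent.GaussPoset.EK
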