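import Pool.Agent.W_448fg_h53.FgK

/-!
MP_448cb3_co, G2, case B, the windows `j - 1` and `j`: the quadratic form of a fold row (the functional
`W# + w32 + 2 F6`).  Here `j = i + 1`.  helper53.
-/

namespace Pool.Agent.GaussPoset.Win.W4

set_option linter.unusedSectionVars false

open Finset

universe u

variable {P : Type u} [Fintype P] [PartialOrder P] [DecidableEq P] {r i : ℕ}
variable {psi : P → P} {C K : Finset P} {w v : P} {m : ℕ} {x : ℕ → P}

namespace DLg

variable (h : DLg r i K psi C w v m x)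
include h

/-- the value at the weights `W#`, window `j` part, two private children, all terms -/
theorem sharp4two' (hm4 : 4 ≤ m) (hl : 0 ≤ NE i C x (m - 1)) (hd : (DE i C x 2).card = 2) :
    2 * (NE i C x 0 + (uc (x 0)).card - 1) ^ 2 - (NE i C x 0 + (uc (x 0)).card - 1) - 10 +
      2 * OCs i C w v ≤
      2 * Lv i C - 3 * I2.al 2 (st i C).card (ZS i C) + 13 * wv i C := by
  have hU2 := h.W.ue_inner (k := 2) (by omega) (by omega)
  have h3 := h.TUs_le hm4
  have h4 := OCs_nonneg (i := i) (C := C) (w := w) (v := v)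
  have hpos : ∀ k, 3 ≤ k → k < m → 0 ≤ NE i C x k := by
    intro k hk hk'
    rcases Nat.lt_or_ge (k + 1) m with h6 | h6
    · exact h.NE_nonneg (by omega) (by omega)
    · have : k = m - 1 := by omega
      rw [this]
      exact hl
  have p3 := hpos 3 le_rfl (by omega)
  have q1 := QS_three' (NE i C x) (s := 3) (t := m) (by omega) hpos
  have e2 : NE i C x 2 = ((DE i C x 2).card : ℤ) := by
    unfold NE
    rw [hU2, card_empty]
    push_cast
    ring
  have hp : pen (x 2) = ∅ := h.W.pen0 2 le_rfl (by omega)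
  have t1 : ((TUs i C x).card : ℤ) ≤ 1 := by exact_mod_cast h3
  have t2 : (0 : ℤ) ≤ ((TLs i C x).card : ℤ) := by positivity
  rw [h.L_form hm4, h.Zs_eq hm4, h.al2_form hp, h.w3_eq, e2]
  rcases h.CH2_num with ⟨d, c⟩ | ⟨d, c⟩ | ⟨d, c⟩
  · omega
  · omega
  · rw [d]
    push_cast
    linarith

end DLg

end Pool.Agent.GaussPoset.Win.W4

namespace Pool.Agent.GaussPoset.EK

set_option linter.unusedSectionVars false

open Finset Win St Polynomial Wd Win.W4
open Pool.Agent.GaussPoset.Win.SO (PN vp mem_PN)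
open Pn

universe u

variable {P : Type u} [Fintype P] [PartialOrder P] [DecidableEq P] {r i : ℕ}

variable {m : ℕ} {x : ℕ → P} {c : ℕ → ℤ} {t : Tops P} {lo hi : ℕ → ℕ} {e : ℕ → ℕ → P}

lemma two_quad (w : ℤ) : 0 ≤ 2 * w + 4 * w ^ 2 := by
  rcases lt_or_ge w 0 with h | h
  · nlinarith
  · nlinarith

namespace FoldDL

variable (F : FoldDL P r i t m x c lo hi e)
include F

/-- THE QUADRATIC FORM of a fold row -/
theorem quad : 0 ≤ 2 * own ⟨-1, 9, 1, 4, 3, -1, 2, 13, 0⟩ i (i + 1) t +
      2 * wv (i + 1) (cext (i + 1 + 1) (topOf : P → Tops P) t) +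
      4 * wv (i + 1) (cext (i + 1 + 1) (topOf : P → Tops P) t) ^ 2 ∨
    (-8 ≤ 2 * own ⟨-1, 9, 1, 4, 3, -1, 2, 13, 0⟩ i (i + 1) t +
      2 * wv (i + 1) (cext (i + 1 + 1) (topOf : P → Tops P) t) +
      4 * wv (i + 1) (cext (i + 1 + 1) (topOf : P → Tops P) t) ^ 2 ∧
      ∃ z y s, K2.SD (i + 1) (topOf : P → Tops P) z y s ∧ topOf y = t ∧ uc y = {x 0, x 1} ∧
        z ∉ So.N5s i (topOf : P → Tops P)) := by
  classical
  have q := two_quad (wv (i + 1) (cext (i + 1 + 1) (topOf : P → Tops P) t))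
  rcases F.tri with h1 | ⟨h1, h2⟩ | ⟨hm4, hN⟩
  · left
    linarith
  · right
    exact ⟨by linarith, h2⟩
  · obtain ⟨K, psi, R⟩ := exists_red P (i + 1)
    obtain ⟨w, v, D⟩ := F.dlg R
    have ho := F.own_sharp
    have hlast := F.UE_last
    have hl : 0 ≤ NE (i + 1) (cext (i + 1 + 1) (topOf : P → Tops P) t) x (m - 1) := by
      unfold NE
      rw [hlast, card_empty]
      push_cast
      omega
    have g := D.sharp4two' hm4 hl hN
    have hn := F.N1f_ge (Or.inr hm4)
    have hn' : wv (i + 1) (cext (i + 1 + 1) (topOf : P → Tops P) t) + 1 ≤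
        ((SO.N1f i (SS i t)).card : ℤ) := by
      rw [← W1.SS_eq F.h rfl]
      exact hn
    have hw := F.Lv_ge.2.2
    rw [hN] at hw
    push_cast at hw
    rw [hw] at hn'
    rw [F.uc0] at g
    push_cast at g
    have hU := F.UE0
    have eN : NE (i + 1) (cext (i + 1 + 1) (topOf : P → Tops P) t) x 0 =
        ((DE (i + 1) (cext (i + 1 + 1) (topOf : P → Tops P) t) x 0).card : ℤ) - 1 := by
      unfold NE
      rw [hU]
      push_cast
      ring
    rw [eN] at g
    have hO := OCs_nonneg (i := i + 1) (C := cext (i + 1 + 1) (topOf : P → Tops P) t)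
      (w := w) (v := v)
    have g5 := two_sq_sub (((DE (i + 1) (cext (i + 1 + 1) (topOf : P → Tops P) t) x 0).card : ℤ) - 1)
    rcases Finset.eq_empty_or_nonempty
      (DE (i + 1) (cext (i + 1 + 1) (topOf : P → Tops P) t) x 0) with h0 | h0
    · left
      rw [h0, card_empty] at g
      push_cast at g
      rw [ho]
      rw [hw] at g ⊢
      linarith
    · rcases F.light D h0 with h5 | ⟨z, y, s, S, h5, h6⟩
      · left
        rw [ho]
        rw [hw] at g ⊢
        linarith
      · right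
        refine ⟨?_, z, y, s, S, h5, h6, F.not_N5s S h6⟩
        rw [ho]
        rw [hw] at g ⊢
        linarith

end FoldDL

end Pool.Agent.GaussPoset.EK
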