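import Pool.Agent.W_448fg_h53.FgM
import Pool.Agent.W_448fin_h16.FnQ

/-!
MP_448cb3_co, G2, case B, the windows `j - 1` and `j`: the extra line of the leaf `HFoldV` for the
functional `W# + w32 + 2 F6`.  Here `j = i + 1`.  helper53.
-/

namespace Pool.Agent.GaussPoset.EK

set_option linter.unusedSectionVars false

open Finset Win St Polynomial Wd Win.W4

universe u

variable {P : Type u} [Fintype P] [PartialOrder P] [DecidableEq P]

/-- the extra line of the leaf [DL] at a fold end -/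
theorem hfoldq : ∀ (r i : ℕ) (K : Finset P) (psi : P → P) (t : Tops P) (m : ℕ) (x : ℕ → P)
    (c : ℕ → ℤ) (β : ℤ) (lo hi : ℕ → ℕ) (e : ℕ → ℕ → P), 1 ≤ i → CB P r (i + 1) →
    Red P (i + 1) K psi → RowB P (i + 1) t m x c β → Cp.Comp (i + 1) (t : P) lo hi e →
    StairShape (i + 1) lo hi → (i + 1) % 2 = 0 → 3 ≤ m → x 0 = e (i + 1) ((i + 1) / 2) →
    IsDL m c β →
    0 ≤ Vt i t + 2 * v3 (i + 1) t + 4 * v3 (i + 1) t ^ 2 ∨
      (-8 ≤ Vt i t + 2 * v3 (i + 1) t + 4 * v3 (i + 1) t ^ 2 ∧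
        ∃ z y v : P, K2.SD (i + 1) (topOf : P → Tops P) z y v ∧ topOf y = t ∧
          sa (i + 1) (topOf : P → Tops P) K (uc y) (topOf y) = 0 ∧
          z ∉ So.N5s i (topOf : P → Tops P)) := by
  classical
  intro r i K psi t m x c β lo hi e hi1 hC R B C S ev hm hx hD
  obtain ⟨hb, c0, c1, c2⟩ := hD
  subst hb
  have F : FoldDL P r i t m x c lo hi e := ⟨hC.nj, hi1, B, C, S, ev, hm, hx, c0, c1, c2⟩
  have hz := F.shr_zero Wsh
  have hV : Vt i t = 2 * Pn.own Wsh i (i + 1) t := by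
    unfold Vt
    rw [hz, add_zero]
  obtain ⟨w, v, D⟩ := F.dlg R
  have e3 : v3 (i + 1) t = wv (i + 1) (cext (i + 1 + 1) (topOf : P → Tops P) t) := rfl
  rw [hV, e3]
  unfold Wsh
  rcases F.quad with h1 | ⟨h1, z, y, s, Sd, hy, huy, h5⟩
  · left
    linarith
  · right
    refine ⟨by linarith, z, y, s, Sd, hy, ?_, h5⟩
    rw [hy, fg_sa hC.nj R D.Q, D.hw, D.hv, huy, if_neg, if_neg]
    · norm_num
    · rw [disjoint_left]
      push Not
      exact ⟨x 1, mem_insert_self _ _, mem_insert_of_mem (mem_singleton_self _)⟩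
    · rw [disjoint_left]
      push Not
      exact ⟨x 0, mem_insert_self _ _, mem_insert_self _ _⟩

end Pool.Agent.GaussPoset.EK
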